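import Pool.Agent.HP27.GD.Low
import Pool.Agent.W25.TF.Fin

set_option autoImplicit false
open Filter Topology Finset
open scoped BoundedContinuousFunction

/-!
# Sets of which one dilate has large and all the others have not too small upper Banach density

The theorem `Pool.Agent.W25.TF.s_maiF4` of the starting files with two thresholds: if the dilate of `U` by one number `N` has
upper Banach density more than `σ`, and the dilates of `U` by arbitrarily divisible numbers have upper Banach density more than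
`ρ`, where `ρ + σ ≥ 1`, then `U` contains all the differences between some four classes of `K` numbers.
-/

namespace Pool.Agent.HP27.GD

open Pool.Agent.W634.BQ Pool.Agent.W505.BQ Pool.Agent.W27.FB Pool.Agent.W142.TF Pool.Agent.W25.TF
open Pool.Agent.H947R3.GM Pool.Agent.W59.GB

theorem chain_lev' (N : ℕ) (hN : 1 ≤ N) (B : ℕ → Prop) (hBN : B N)
    (hB : ∀ M : ℕ, 1 ≤ M → ∃ Q : ℕ, B Q ∧ 1 ≤ Q ∧ M ∣ Q ∧ Q ≠ N) (qq : ℕ → ℕ) (hq : ∀ Q, B Q → 1 ≤ qq Q) :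
    ∃ R : ℕ → ℕ, (∀ s, B (R s) ∧ 1 ≤ R s) ∧ (∀ s, R s * qq (R s) ∣ R (s + 1)) ∧ R 0 = N ∧ ∀ s, R (s + 1) ≠ N := by
  classical
  have hB' : ∀ M : ℕ, ∃ Q : ℕ, 1 ≤ M → B Q ∧ 1 ≤ Q ∧ M ∣ Q ∧ Q ≠ N := by
    intro M
    by_cases hM : 1 ≤ M
    · obtain ⟨Q, hQ⟩ := hB M hM
      exact ⟨Q, fun _ => hQ⟩
    · exact ⟨0, fun h => absurd h hM⟩
  choose nx hnx using hB'
  let R : ℕ → ℕ := fun s => Nat.rec N (fun _ r => nx (r * qq r)) s
  have hR : ∀ s, B (R s) ∧ 1 ≤ R s := by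
    intro s
    induction s with
    | zero => exact ⟨hBN, hN⟩
    | succ s ih =>
      have h := hnx (R s * qq (R s)) (Nat.mul_pos ih.2 (hq _ ih.1))
      exact ⟨h.1, h.2.1⟩
  refine ⟨R, hR, fun s => ?_, rfl, fun s => ?_⟩
  · exact (hnx (R s * qq (R s)) (Nat.mul_pos (hR s).2 (hq _ (hR s).1))).2.2.1
  · exact (hnx (R s * qq (R s)) (Nat.mul_pos (hR s).2 (hq _ (hR s).1))).2.2.2

theorem levels' (n N : ℕ) (hN : 1 ≤ N) (B : ℕ → Prop) (hBN : B N)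
    (hB : ∀ M : ℕ, 1 ≤ M → ∃ Q : ℕ, B Q ∧ 1 ≤ Q ∧ M ∣ Q ∧ Q ≠ N) (qq : ℕ → ℕ) (hq : ∀ Q, B Q → 1 ≤ qq Q) :
    ∃ (Q : ℕ → ℕ) (c : ℕ → ℕ → ℕ) (S : ℕ → ℕ), (∀ j, B (Q j) ∧ 1 ≤ Q j) ∧ (∀ j i, 1 ≤ c j i) ∧
      (∀ i j, i < j → j < n → Q j * c j i = Q i) ∧ (∀ j, j < n → 1 ≤ S j ∧ qq (Q j) ∣ S j) ∧
      (∀ i j, i < j → j < n → qq (Q j) ∣ c j i ∧ S j = c j i * S i) ∧
      (∀ j, n - 1 ≤ j → Q j = N) ∧ ∀ j, j < n - 1 → Q j ≠ N := by
  obtain ⟨R, hR, hRs, hR0, hR1⟩ := chain_lev' N hN B hBN hB qq hq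
  have hpos : ∀ s, 0 < R s := fun s => (hR s).2
  have hdvd : ∀ s t, s ≤ t → R s ∣ R t := by
    intro s t h
    induction t, h using Nat.le_induction with
    | base => exact dvd_rfl
    | succ t _ ih => exact ih.trans ((Dvd.intro _ rfl).trans (hRs t))
  have hdvd' : ∀ s t, s < t → qq (R s) ∣ R t / R s := by
    intro s t h
    obtain ⟨k, hk⟩ := (hRs s).trans (hdvd (s + 1) t h)
    refine ⟨k, ?_⟩
    rw [hk, mul_assoc]
    exact Nat.mul_div_cancel_left _ (hpos s)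
  refine ⟨fun j => R (n - 1 - j), fun j i => if i < j then R (n - 1 - i) / R (n - 1 - j) else 1,
    fun j => R n / R (n - 1 - j), fun j => hR _, ?_, ?_, ?_, ?_, ?_, ?_⟩
  · intro j i
    simp only
    split_ifs with h
    · exact Nat.div_pos (Nat.le_of_dvd (hpos _) (hdvd _ _ (by omega))) (hpos _)
    · exact le_rfl
  · intro i j hij hj
    simp only [if_pos hij]
    exact Nat.mul_div_cancel' (hdvd _ _ (by omega))
  · intro j hj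
    exact ⟨Nat.div_pos (Nat.le_of_dvd (hpos _) (hdvd _ _ (by omega))) (hpos _), hdvd' _ _ (by omega)⟩
  · intro i j hij hj
    simp only [if_pos hij]
    refine ⟨hdvd' _ _ (by omega), ?_⟩
    obtain ⟨x, hx⟩ := hdvd (n - 1 - j) (n - 1 - i) (by omega)
    obtain ⟨y, hy⟩ := hdvd (n - 1 - i) n (by omega)
    have e1 : R n / R (n - 1 - i) = y := by rw [hy]; exact Nat.mul_div_cancel_left _ (hpos _)
    have e2 : R (n - 1 - i) / R (n - 1 - j) = x := by rw [hx]; exact Nat.mul_div_cancel_left _ (hpos _)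
    have e3 : R n / R (n - 1 - j) = x * y := by
      rw [hy, hx, mul_assoc]; exact Nat.mul_div_cancel_left _ (hpos _)
    rw [e1, e2, e3]
  · intro j hj
    have : n - 1 - j = 0 := by omega
    simp only [this, hR0]
  · intro j hj
    obtain ⟨s, hs⟩ : ∃ s, n - 1 - j = s + 1 := ⟨n - 1 - j - 1, by omega⟩
    simp only [hs]
    exact hR1 s

/-- the coarse data of a level -/
theorem level_data' (hban : S_ban) (happr : S_appr) (hcls : S_cls) (U : Set ℤ) (ρ : ℕ → ℝ) (εc : ℝ) (hεc : 0 < εc) :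
    ∃ (M : ℕ → ((ℤ →ᵇ ℝ) →ₗ[ℝ] ℝ)) (PP : ℕ → (ℤ →ᵇ ℝ)) (qq : ℕ → ℕ), ∀ Q : ℕ, Den U (ρ Q) Q →
      IsMean (M Q) ∧ Extr (M Q) ∧ ρ Q ≤ M Q (ind {k : ℤ | (Q : ℤ) * k ∈ U}) ∧
      App (M Q) {k : ℤ | (Q : ℤ) * k ∈ U} (PP Q) εc ∧ 1 ≤ qq Q ∧ Tor (PP Q) (qq Q) := by
  have h : ∀ Q : ℕ, ∃ (m : (ℤ →ᵇ ℝ) →ₗ[ℝ] ℝ) (P : ℤ →ᵇ ℝ) (q : ℕ), Den U (ρ Q) Q →
      IsMean m ∧ Extr m ∧ ρ Q ≤ m (ind {k : ℤ | (Q : ℤ) * k ∈ U}) ∧
      App m {k : ℤ | (Q : ℤ) * k ∈ U} P εc ∧ 1 ≤ q ∧ Tor P q := by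
    intro Q
    by_cases hQ : Den U (ρ Q) Q
    · obtain ⟨m, hm, hex, hmd⟩ := hban {k : ℤ | (Q : ℤ) * k ∈ U} (ρ Q) hQ
      obtain ⟨P, hP1, hP2, hP3⟩ := happr m hm hex _ εc hεc
      obtain ⟨q, hq1, hq2⟩ := hcls.2.2 P hP1
      exact ⟨m, P, q, fun _ => ⟨hm, hex, hmd, ⟨hP1, hP2, hP3⟩, hq1, hq2⟩⟩
    · exact ⟨0, 0, 0, fun h => absurd h hQ⟩
  choose M PP qq hh using h
  exact ⟨M, PP, qq, hh⟩

theorem mai (U : Set ℤ) (N : ℕ) (hN : 1 ≤ N) {ρ σ ε : ℝ} (hε : 0 < ε) (hρ0 : 0 ≤ ρ) (hσ0 : 0 ≤ σ)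
    (hρσ : 1 ≤ ρ + σ) (hσρ : 2 * σ + ε ≤ 1 + ρ) (hNσ : Den U (σ + ε) N)
    (H : ∀ M : ℕ, 1 ≤ M → ∃ Q : ℕ, 1 ≤ Q ∧ M ∣ Q ∧ Den U (ρ + ε) Q) (K : ℕ) :
    ∃ (Q : ℕ → ℕ) (A : ℕ → ℕ → ℤ), (∀ j, 1 ≤ Q j) ∧ (∀ j, Set.InjOn (A j) {k | k < K}) ∧
    ∀ i j, i < j → j < 4 → ∀ k k', k < K → k' < K → (Q j : ℤ) * A j k - (Q i : ℤ) * A i k' ∈ U := by
  classical
  obtain ⟨hban, happr, hcls, hlev, hper, hcmp, hblo⟩ : S_ban ∧ S_appr ∧ S_cls ∧ S_lev ∧ S_per ∧ S_cmp ∧ S_blo :=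
    ⟨Pool.Agent.W756.TF.ban, s_appr, Pool.Agent.W681.TF.clss, Pool.Agent.W681.TF.lev, s_per, s_cmp,
      Pool.Agent.W597.TF.blo⟩
  have hρ1' : ρ + ε ≤ 1 := by
    obtain ⟨Q, _, _, hQ⟩ := H 1 le_rfl
    exact Den.le_one (U := U) (ρ := ρ + ε) (Q := Q) hQ
  have hσ1' : σ + ε ≤ 1 := Den.le_one (U := U) (ρ := σ + ε) (Q := N) hNσ
  have hε1 : ε ≤ 1 := by linarith
  set η : ℝ := ε / 32 with hη
  have hη0 : 0 < η := by positivity
  have hη1 : η ≤ 1 / 32 := by rw [hη]; linarith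
  set κ : ℝ := η ^ 3 / 40 with hκ
  have hκ0 : 0 < κ := by positivity
  have hκ1 : κ ≤ 1 := by
    rw [hκ]
    have : η ^ 3 ≤ 1 := pow_le_one₀ hη0.le (by linarith)
    linarith
  set εc : ℝ := κ * η with hεc
  have hεc0 : 0 < εc := by positivity
  obtain ⟨M, PP, qq, hdat⟩ := level_data' hban happr hcls U (fun Q => (if Q = N then σ else ρ) + ε) εc hεc0
  obtain ⟨Qf, c, S, hQ1, hc1, hcQ, hS1, hcS, hQN, hQN'⟩ := levels' 4 N hN
    (fun Q => Den U ((if Q = N then σ else ρ) + ε) Q) (by simpa using hNσ)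
    (fun M hM => by
      obtain ⟨Q, h1, h2, h3⟩ := H (M * (N + 1)) (Nat.mul_pos hM (Nat.succ_pos N))
      have hQN : Q ≠ N := by
        rintro rfl
        have h4 := Nat.le_of_dvd h1 ((dvd_mul_left (Q + 1) M).trans h2)
        omega
      refine ⟨Q, ?_, h1, (dvd_mul_right M _).trans h2, hQN⟩
      simp only [if_neg hQN]
      exact h3) qq (fun Q hQ => (hdat Q hQ).2.2.2.2.1)
  obtain ⟨θ, hθ⟩ : ∃ θ : ℕ → ℝ, θ = fun j => if j < 3 then ρ else σ := ⟨_, rfl⟩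
  have hthr : ∀ j, (if Qf j = N then σ else ρ) = θ j := by
    intro j
    rw [hθ]
    by_cases hj : j < 3
    · simp only [hj, if_true, if_neg (hQN' j (by omega))]
    · simp only [hj, if_false, if_pos (hQN j (by omega))]
  have hθ0 : ∀ j, 0 ≤ θ j := by
    intro j
    rw [hθ]
    simp only
    split_ifs
    · exact hρ0
    · exact hσ0
  have hM : ∀ j, IsMean (M (Qf j)) := fun j => (hdat _ (hQ1 j).1).1
  have hE : ∀ j, Extr (M (Qf j)) := fun j => (hdat _ (hQ1 j).1).2.1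
  have hMd : ∀ j, θ j + ε ≤ M (Qf j) (ind {k : ℤ | (Qf j : ℤ) * k ∈ U}) := fun j => by
    have h := (hdat _ (hQ1 j).1).2.2.1
    rwa [hthr j] at h
  have hA : ∀ j, App (M (Qf j)) {k : ℤ | (Qf j : ℤ) * k ∈ U} (PP (Qf j)) εc := fun j => (hdat _ (hQ1 j).1).2.2.2.1
  have hq1 : ∀ j, 1 ≤ qq (Qf j) := fun j => (hdat _ (hQ1 j).1).2.2.2.2.1
  have hT : ∀ j, Tor (PP (Qf j)) (qq (Qf j)) := fun j => (hdat _ (hQ1 j).1).2.2.2.2.2
  have hεη : ε = 32 * η := by rw [hη]; ring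
  obtain ⟨c₀, hc₀, hlowa⟩ := low hper hcls (fun j => M (Qf j)) hM (fun j => PP (Qf j)) (fun j => qq (Qf j)) S c η hη0
    θ hθ0 (by rw [hθ]; simp) (by rw [hθ]; simp; linarith) (by rw [hθ]; simp; linarith)
    (by rw [hθ]; simp; linarith) (by rw [hθ]; simp; linarith)
    (fun j hj => ⟨(hA j).2.1, hT j, hq1 j, (hS1 j hj).1, (hS1 j hj).2⟩) hcS
  -- the fine approximation
  set ε' : ℝ := min εc (c₀ / 100) with hε'
  have hε'0 : 0 < ε' := lt_min hεc0 (by positivity)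
  have hfine : ∀ j : ℕ, ∃ (P' : ℤ →ᵇ ℝ) (r : ℤ), App (M (Qf j)) {k : ℤ | (Qf j : ℤ) * k ∈ U} P' ε' ∧
      (θ j + 8 * η) / qq (Qf j) ≤ M (Qf j) (cls (qq (Qf j)) r * PP (Qf j)) ∧
      M (Qf j) (cls (qq (Qf j)) r * ((P' - PP (Qf j)) * (P' - PP (Qf j)))) ≤ κ / qq (Qf j) := by
    intro j
    obtain ⟨P', h1, h2, h3⟩ := happr (M (Qf j)) (hM _) (hE _) {k : ℤ | (Qf j : ℤ) * k ∈ U} ε' hε'0
    have hg : θ j + 8 * η ≤ θ j + ε - εc - (εc + ε') / κ := by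
      have e1 : (εc + ε') / κ ≤ 2 * η := by
        rw [div_le_iff₀ hκ0]
        have : ε' ≤ εc := min_le_left _ _
        have : εc = κ * η := hεc
        nlinarith
      have e2 : εc ≤ η := by rw [hεc]; nlinarith
      have e3 : ε = 32 * η := by rw [hη]; ring
      linarith
    obtain ⟨r, hr1, hr2⟩ := hlev (M (Qf j)) (hM _) {k : ℤ | (Qf j : ℤ) * k ∈ U} (PP (Qf j)) P' εc ε' (θ j + ε) κ hκ0
      (hA _) ⟨h1, h2, h3⟩ (hMd _) (by linarith [hθ0 j]) (qq (Qf j)) (hq1 _)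
    refine ⟨P', r, ⟨h1, h2, h3⟩, le_trans ?_ hr1, hr2⟩
    have : (0 : ℝ) < qq (Qf j) := by exact_mod_cast hq1 j
    exact div_le_div_of_nonneg_right hg this.le
  choose P' r hA' hr1 hr2 using hfine
  have hlow5 := hlowa P' r (fun j _ => (hA' j).2.1) (fun j _ _ => ⟨hr1 j, hr2 j⟩)
  have hcmp5 := hcmp (fun j => M (Qf j)) hM (fun j => {k : ℤ | (Qf j : ℤ) * k ∈ U}) P' ε' hε'0 hA' c hc1 4
    (fun j => cls (qq (Qf j)) (r j)) (fun j => hcls.1 _ _ (hq1 _))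
  have hFV : 0 < It (fun j => M (Qf j)) 4
      (FV (fun j => cls (qq (Qf j)) (r j)) (fun j => {k : ℤ | (Qf j : ℤ) * k ∈ U}) c 4) := by
    have h1 := (abs_le.1 hcmp5).1
    have h2 : ε' ≤ c₀ / 100 := min_le_right _ _
    push_cast at h1
    nlinarith
  have hcls01 : ∀ (j : ℕ) (n : ℤ), 0 ≤ cls (qq (Qf j)) (r j) n ∧ cls (qq (Qf j)) (r j) n ≤ 1 := fun j n => ind01 _ _
  have hpos : 0 < It (fun j => M (Qf j)) 4
      (fun a => if (∀ i j, i < j → j < 4 → a j - c j i * a i ∈ {k : ℤ | (Qf j : ℤ) * k ∈ U}) then 1 else 0) := by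
    refine lt_of_lt_of_le hFV (It_mono (fun j => hM _) 4 (C := 1) (D := 1)
      (fun a => abs01 (FV_01 _ _ _ hcls01 4 a)) (fun a => ?_) fun a => ?_)
    · split_ifs <;> simp
    · split_ifs with h
      · exact (FV_01 _ _ _ hcls01 4 a).2
      · push Not at h
        obtain ⟨i, j, hij, hj, hn⟩ := h
        refine le_of_eq (prod_eq_zero (mem_range.2 hj) ?_)
        rw [prod_eq_zero (mem_range.2 hij) (ind_notMem hn), mul_zero]
  obtain ⟨A, hinj, hAE⟩ := hblo (fun j => M (Qf j)) hM 4 K _ hpos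
  refine ⟨Qf, A, fun j => (hQ1 j).2, hinj, ?_⟩
  intro i j hij hj k k' hk hk'
  have h := hAE (fun l => if l = j then k else k') (fun l _ => by
    split_ifs <;> assumption) i j hij hj
  have hi : i < 4 := hij.trans hj
  simp only [hj, hi, if_true, hij.ne, if_false] at h
  have h' : (Qf j : ℤ) * (A j k - c j i * A i k') ∈ U := h
  rw [mul_sub, ← mul_assoc, ← Nat.cast_mul, hcQ i j hij hj] at h'
  exact h'

end Pool.Agent.HP27.GD
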