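import Mathlib
import Pool.Agent.HP27.GD.Mai
import Pool.Agent.HP27.TG.Half

set_option autoImplicit false

/-!
# Lower densities of the multiples of different numbers in a set which meets the differences of any four classes

Let `G` meet the differences of any four classes, and for every `N` let `d(N)` be the lower Banach density of the set of
the `k` with `N k` in `G`. The theorem of the starting files says that `d(N)` is at least `1/2 - ε` for all sufficiently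
divisible `N`. Here: if `d(N) < t` for one `N` then `d(Q) ≥ 1 - t` (up to `ε`) for all sufficiently divisible `Q`.
-/

namespace Pool.Agent.HP27.GD

open Finset Filter Classical
open Pool.Agent.W142.TF (points not_Cpl Cpl Den)
open Pool.Agent.HP27.TG (FourAll dil cnt Half)

/-- the conclusion of `mai` contradicts the property of four classes -/
theorem no_classes {K L : ℕ} (hL : 0 < L) {G : Set ℕ} (h4 : FourAll K L G)
    (h : ∃ (Q : ℕ → ℕ) (A : ℕ → ℕ → ℤ), (∀ j, 1 ≤ Q j) ∧ (∀ j, Set.InjOn (A j) {k | k < K}) ∧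
      ∀ i j, i < j → j < 4 → ∀ k k', k < K → k' < K → (Q j : ℤ) * A j k - (Q i : ℤ) * A i k' ∈
        {k : ℤ | ((L : ℕ) : ℤ) * k ∈ Cpl G}) : False := by
  obtain ⟨Q, A, hQ, hinj, hcr⟩ := h
  obtain ⟨H, C, hH⟩ := points 4 K L Q A
  have hL0 : (L : ℤ) ≠ 0 := by exact_mod_cast hL.ne'
  have hcross : ∀ g g' : Fin 4, g < g' → ∀ i i', H g i ≠ H g' i' := by
    intro g g' hgg i i' he
    have h := hcr g g' hgg g'.2 i' i i'.2 i.2
    exact (not_Cpl C (hH g' i') (hH g i) h).1 he.symm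
  obtain ⟨g, g', k, k', hne, hlt, hG⟩ := h4 H (by
    rintro ⟨g, i⟩ ⟨g', i'⟩ he
    have he' : H g i = H g' i' := he
    rcases lt_trichotomy g g' with hg | hg | hg
    · exact absurd he' (hcross g g' hg i i')
    · subst hg
      have e : (L : ℤ) * (Q g * A g i + C) = L * (Q g * A g i' + C) := by rw [← hH, ← hH, he']
      have e1 := mul_left_cancel₀ hL0 e
      have e2 : (Q g : ℤ) * A g i = Q g * A g i' := by linarith
      have hQ0 : (Q g : ℤ) ≠ 0 := by have := hQ g; omega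
      have e3 := mul_left_cancel₀ hQ0 e2
      have e4 := hinj g i.2 i'.2 e3
      rw [Fin.ext e4]
    · exact absurd he'.symm (hcross g' g hg i' i)) (by
    have hz : ∀ g i, H g i ≡ 0 [MOD L] := by
      intro g i
      rw [Nat.modEq_zero_iff_dvd, ← Int.natCast_dvd_natCast, hH]
      exact dvd_mul_right _ _
    intro g k g' k'
    exact (hz g k).trans (hz g' k').symm)
  rcases lt_or_gt_of_ne hne with h | h
  · have := not_Cpl C (hH g' k') (hH g k) (hcr g g' h g'.2 k' k k'.2 k.2)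
    exact this.2.2 hlt hG
  · have := not_Cpl C (hH g k) (hH g' k') (hcr g' g h g.2 k k' k.2 k'.2)
    exact this.2.1 hlt hG

/-- the density of the complement in a window -/
theorem compl_window {L Q : ℕ} (hL : 0 < L) (hQ : 0 < Q) (G : Set ℕ) (u T : ℕ) :
    (T : ℝ) - cnt (dil (L * Q) G) u T ≤
      ({n : ℕ | n < T ∧ (Q : ℤ) * (((u : ℤ) + 1) + (n : ℤ)) ∈ {k : ℤ | (L : ℤ) * k ∈ Cpl G}}.ncard : ℝ) := by
  have h1 : cnt (dil (L * Q) G) u T + ((Ioc u (u + T)).filter (fun x => ¬ x ∈ dil (L * Q) G)).card = T := by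
    unfold cnt
    rw [card_filter_add_card_filter_not, Nat.card_Ioc]
    omega
  have h2 : ((Ioc u (u + T)).filter (fun x => ¬ x ∈ dil (L * Q) G)).card ≤
      {n : ℕ | n < T ∧ (Q : ℤ) * (((u : ℤ) + 1) + (n : ℤ)) ∈ {k : ℤ | (L : ℤ) * k ∈ Cpl G}}.ncard := by
    rw [← Set.ncard_coe_finset]
    refine Set.ncard_le_ncard_of_injOn (fun x => x - (u + 1)) ?_ ?_ ((Set.finite_lt_nat T).subset fun n hn => hn.1)
    · intro x hx
      rw [mem_coe, mem_filter, mem_Ioc] at hx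
      obtain ⟨⟨hx1, hx2⟩, hx3⟩ := hx
      refine ⟨by show x - (u + 1) < T; omega, ?_⟩
      have e : (L : ℤ) * ((Q : ℤ) * (((u : ℤ) + 1) + ((x - (u + 1) : ℕ) : ℤ))) = ((L * Q * x : ℕ) : ℤ) := by
        rw [Nat.cast_sub (by omega)]
        push_cast
        ring
      show (L : ℤ) * ((Q : ℤ) * (((u : ℤ) + 1) + ((x - (u + 1) : ℕ) : ℤ))) ∈ Cpl G
      rw [e]
      refine ⟨?_, ?_⟩
      · rw [Ne, Nat.cast_eq_zero]
        exact (Nat.mul_pos (Nat.mul_pos hL hQ) (by omega)).ne'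
      · rw [Int.natAbs_natCast]
        exact hx3
    · intro x hx y hy hxy
      rw [mem_coe, mem_filter, mem_Ioc] at hx hy
      have h : x - (u + 1) = y - (u + 1) := hxy
      omega
  have h3 : (cnt (dil (L * Q) G) u T : ℝ) + (((Ioc u (u + T)).filter (fun x => ¬ x ∈ dil (L * Q) G)).card : ℝ) = T := by
    exact_mod_cast h1
  have h4 : (((Ioc u (u + T)).filter (fun x => ¬ x ∈ dil (L * Q) G)).card : ℝ) ≤
      ({n : ℕ | n < T ∧ (Q : ℤ) * (((u : ℤ) + 1) + (n : ℤ)) ∈ {k : ℤ | (L : ℤ) * k ∈ Cpl G}}.ncard : ℝ) := by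
    exact_mod_cast h2
  linarith

/-- **duality**: if the density for one number `N` is less than `t` then the density is at least `1 - t` for all
sufficiently divisible numbers -/
theorem dual {K L : ℕ} (hL : 0 < L) {G : Set ℕ} (h4 : FourAll K L G) {t : ℝ} (ht : 1 / 3 < t) (ht1 : t ≤ 1) :
    (∀ N : ℕ, 0 < N → ∀ ε : ℝ, 0 < ε → ∃ L₀ : ℕ, ∀ T : ℕ, L₀ ≤ T → ∀ u : ℕ,
      (t - ε) * T ≤ cnt (dil (L * N) G) u T) ∨
    (∀ ε : ℝ, 0 < ε → ∃ M : ℕ, 0 < M ∧ ∀ N : ℕ, 0 < N → M ∣ N → ∃ L₀ : ℕ, ∀ T : ℕ, L₀ ≤ T → ∀ u : ℕ,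
      (1 - t - ε) * T ≤ cnt (dil N G) u T) := by
  by_contra hcon
  push Not at hcon
  obtain ⟨⟨N, hN, ε₀, hε₀, h0⟩, ⟨ε₁, hε₁, h1⟩⟩ := hcon
  obtain ⟨ε, hε, he0, he1, he2⟩ : ∃ ε : ℝ, 0 < ε ∧ ε ≤ ε₀ ∧ ε ≤ ε₁ ∧ ε ≤ 3 * t - 1 :=
    ⟨min (min ε₀ ε₁) (3 * t - 1), lt_min (lt_min hε₀ hε₁) (by linarith), (min_le_left _ _).trans (min_le_left _ _),
      (min_le_left _ _).trans (min_le_right _ _), min_le_right _ _⟩
  refine no_classes hL h4 (mai {k : ℤ | (L : ℤ) * k ∈ Cpl G} N hN (ρ := t) (σ := 1 - t) hε (by linarith)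
    (by linarith) (by linarith) (by linarith) ?_ ?_ K)
  · intro L₀
    obtain ⟨T, hT, u, hu⟩ := h0 L₀
    refine ⟨T, hT, (u : ℤ) + 1, le_trans ?_ (compl_window hL hN G u T)⟩
    have hT0 : (0 : ℝ) ≤ T := Nat.cast_nonneg T
    nlinarith
  · intro M hM
    obtain ⟨N', hN', hd, h2⟩ := h1 (L * M) (Nat.mul_pos hL hM)
    obtain ⟨j, rfl⟩ := hd
    have hj : 0 < M * j := by
      rcases Nat.eq_zero_or_pos (M * j) with h | h
      · rw [mul_assoc, h] at hN'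
        omega
      · exact h
    refine ⟨M * j, hj, dvd_mul_right M j, fun L₀ => ?_⟩
    obtain ⟨T, hT, u, hu⟩ := h2 L₀
    refine ⟨T, hT, (u : ℤ) + 1, le_trans ?_ (compl_window hL hj G u T)⟩
    have hT0 : (0 : ℝ) ≤ T := Nat.cast_nonneg T
    rw [mul_assoc] at hu
    nlinarith

/-- **at least one half for all numbers, or more than one half for all sufficiently divisible numbers** -/
theorem dichotomy {K L : ℕ} (hL : 0 < L) {G : Set ℕ} (h4 : FourAll K L G) :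
    (∀ N : ℕ, 0 < N → ∀ ε : ℝ, 0 < ε → ∃ L₀ : ℕ, ∀ T : ℕ, L₀ ≤ T → ∀ u : ℕ,
      (1 / 2 - ε) * T ≤ cnt (dil (L * N) G) u T) ∨
    (∃ β : ℝ, 0 < β ∧ ∃ M : ℕ, 0 < M ∧ ∀ N : ℕ, 0 < N → M ∣ N → ∃ L₀ : ℕ, ∀ T : ℕ, L₀ ≤ T → ∀ u : ℕ,
      (1 / 2 + β) * T ≤ cnt (dil N G) u T) := by
  by_contra hcon
  push Not at hcon
  obtain ⟨⟨N, hN, ε, hε, h0⟩, h1⟩ := hcon
  obtain ⟨η, hη, he0, he1⟩ : ∃ η : ℝ, 0 < η ∧ 4 * η ≤ ε ∧ η ≤ 1 / 24 :=
    ⟨min (ε / 4) (1 / 24), lt_min (by linarith) (by norm_num), by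
      have := min_le_left (ε / 4) (1 / 24 : ℝ)
      linarith, min_le_right _ _⟩
  rcases dual hL h4 (t := 1 / 2 - 2 * η) (by linarith) (by linarith) with h | h
  · obtain ⟨L₀, hL₀⟩ := h N hN η hη
    obtain ⟨T, hT, u, hu⟩ := h0 L₀
    have h2 := hL₀ T hT u
    have hT0 : (0 : ℝ) ≤ T := Nat.cast_nonneg T
    nlinarith
  · obtain ⟨M, hM, h2⟩ := h η hη
    obtain ⟨N', hN', hd, h3⟩ := h1 η hη M hM
    obtain ⟨L₀, hL₀⟩ := h2 N' hN' hd
    obtain ⟨T, hT, u, hu⟩ := h3 L₀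
    have h4 := hL₀ T hT u
    have hT0 : (0 : ℝ) ≤ T := Nat.cast_nonneg T
    nlinarith

end Pool.Agent.HP27.GD
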