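import Mathlib
import Pool.Agent.HP27.GD.Dual

set_option autoImplicit false

/-!
# Density one: almost all multiples of a fixed number are sums and differences of two elements

The theorem `Pool.Agent.HP27.TG.sums` with a number `M` which does not depend on the size `δ` of the exceptional set.
-/

namespace Pool.Agent.HP27.GD

open Finset Filter Classical
open Pool.Agent.HP27.TG (FourAll dil cnt Half Bad Badd find findd rep repd Rich)

/-- two levels at which the complement is rich give four classes -/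
theorem two_levels' {K L : ℕ} (hK : 1 ≤ K) {G : Set ℕ} (h4 : FourAll K L G) {m m' : ℕ} (hm' : 0 < m')
    {N₁ N₂ : ℕ} (hN₁ : 0 < N₁) (hN₂ : 0 < N₂) (hL : L ∣ N₁) (hd : N₁ * m ∣ N₂)
    (h1 : ∀ F : Finset ℕ, F.card ≤ 4 * K * K + 2 * K → (∀ s ∈ F, m ∣ s) →
      ∃ x, 0 < x ∧ x ∉ dil N₁ G ∧ ∀ s ∈ F, x + s ∉ dil N₁ G)
    (h2 : ∀ F : Finset ℕ, F.card ≤ 4 * K * K + 2 * K → (∀ s ∈ F, m' ∣ s) →
      ∃ x, 0 < x ∧ x ∉ dil N₂ G ∧ ∀ s ∈ F, x + s ∉ dil N₂ G) : False := by
  obtain ⟨j, hj⟩ := hd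
  obtain ⟨x₂, hx₂0, -, hx₂⟩ := h2 ((range (2 * K)).image (fun i => i * m'))
    (card_image_le.trans (by rw [card_range]; omega)) (by
      intro s hs
      rw [mem_image] at hs
      obtain ⟨i, -, rfl⟩ := hs
      exact dvd_mul_left m' i)
  -- the numbers on the second level
  obtain ⟨y, hy⟩ : ∃ y : Bool → Fin K → ℕ,
      y = (fun (b : Bool) (i : Fin K) => (if b = true then x₂ + (K - 1) * m' else 0) + (i : ℕ) * m') := ⟨_, rfl⟩
  obtain ⟨W, hW⟩ : ∃ W, W = ∑ b, ∑ i, y b i := ⟨_, rfl⟩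
  have hyW : ∀ b i, y b i ≤ W := by
    intro b i
    rw [hW]
    calc y b i ≤ ∑ i, y b i := single_le_sum (f := fun i => y b i) (fun _ _ => Nat.zero_le _) (mem_univ i)
      _ ≤ _ := single_le_sum (f := fun b => ∑ i, y b i) (fun _ _ => Nat.zero_le _) (mem_univ b)
  have hym : ∀ i i' : Fin K, y false i < y true i' ∧ y true i' - y false i ∉ dil N₂ G := by
    intro i i'
    have e1 : y false i = i * m' := by rw [hy]; simp
    have e2 : y true i' = x₂ + (K - 1) * m' + i' * m' := by rw [hy]; simp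
    have h3 : (i : ℕ) * m' ≤ (K - 1) * m' := Nat.mul_le_mul_right m' (by have := i.2; omega)
    refine ⟨by omega, ?_⟩
    have h4 : y true i' - y false i = x₂ + (K - 1 + i' - i) * m' := by
      rw [e1, e2]
      have h5 : (K - 1 + i' - i) * m' + i * m' = (K - 1) * m' + i' * m' := by
        rw [← add_mul, ← add_mul]
        congr 1
        have := i.2
        omega
      omega
    rw [h4]
    apply hx₂
    rw [mem_image]
    refine ⟨K - 1 + i' - i, ?_, rfl⟩
    rw [mem_range]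
    have := i'.2
    omega
  -- the first level
  obtain ⟨x₁, hx₁0, -, hx₁⟩ := h1 ((univ : Finset ((Bool × Fin K) × (Bool × Fin K))).image
      (fun z => m * j * (W + y z.2.1 z.2.2 - y z.1.1 z.1.2))) (by
    refine card_image_le.trans ?_
    rw [card_univ, Fintype.card_prod, Fintype.card_prod, Fintype.card_bool, Fintype.card_fin]
    nlinarith) (by
      intro s hs
      rw [mem_image] at hs
      obtain ⟨z, -, rfl⟩ := hs
      rw [mul_assoc]
      exact dvd_mul_right m _)
  obtain ⟨x₀, hx₀⟩ : ∃ x₀, x₀ = x₁ + m * j * W := ⟨_, rfl⟩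
  have hcross : ∀ b b' i i', N₂ * y b i < N₁ * x₀ + N₂ * y b' i' ∧
      (N₁ * x₀ + N₂ * y b' i') - N₂ * y b i ∉ G := by
    intro b b' i i'
    have e1 : N₂ = N₁ * (m * j) := by rw [hj]; ring
    have h3 : y b i ≤ W := hyW b i
    have e2 : N₁ * x₀ + N₂ * y b' i' = N₁ * (x₁ + m * j * (W + y b' i' - y b i)) + N₂ * y b i := by
      rw [hx₀, e1]
      have h5 : m * j * (W + y b' i' - y b i) + m * j * y b i = m * j * W + m * j * y b' i' := by
        rw [← mul_add, ← mul_add]
        congr 1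
        omega
      calc N₁ * (x₁ + m * j * W) + N₁ * (m * j) * y b' i' = N₁ * x₁ + N₁ * (m * j * W + m * j * y b' i') := by ring
        _ = N₁ * x₁ + N₁ * (m * j * (W + y b' i' - y b i) + m * j * y b i) := by rw [h5]
        _ = _ := by ring
    have h6 : 0 < N₁ * (x₁ + m * j * (W + y b' i' - y b i)) := Nat.mul_pos hN₁ (by omega)
    refine ⟨by omega, ?_⟩
    rw [e2, Nat.add_sub_cancel]
    exact hx₁ _ (mem_image.2 ⟨((b, i), (b', i')), mem_univ _, rfl⟩)
  -- the four classes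
  obtain ⟨e⟩ : Nonempty (Fin 4 ≃ Bool × Bool) := ⟨Fintype.equivOfCardEq (by simp)⟩
  obtain ⟨A, hA⟩ : ∃ A : Fin 4 → Fin K → ℕ, A = (fun (g : Fin 4) (k : Fin K) =>
    (if (e g).1 = true then N₁ * x₀ else 0) + N₂ * y (e g).2 k) := ⟨_, rfl⟩
  have hyinj : ∀ b i i', y b i = y b i' → i = i' := by
    intro b i i' h
    rw [hy] at h
    have h3 : (i : ℕ) * m' = i' * m' := by
      simp only at h
      omega
    exact Fin.ext (Nat.eq_of_mul_eq_mul_right hm' h3)
  have key : ∀ g g' k k', g ≠ g' → A g k < A g' k' → A g' k' - A g k ∉ G := by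
    intro g g' k k' hne hlt
    have hne' : e g ≠ e g' := fun h => hne (e.injective h)
    rw [hA] at hlt ⊢
    simp only at hlt ⊢
    rcases hg : e g with ⟨b, b₁⟩
    rcases hg' : e g' with ⟨b', b₁'⟩
    rw [hg, hg'] at hlt hne'
    rw [hg, hg'] at *
    simp only at hlt ⊢
    cases b <;> cases b'
    · cases b₁ <;> cases b₁'
      · exact absurd rfl hne'
      · have h3 := hym k k'
        have h4 : N₂ * y true k' - N₂ * y false k = N₂ * (y true k' - y false k) := (Nat.mul_sub _ _ _).symm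
        simp only [Bool.false_eq_true, if_false, zero_add]
        rw [h4]
        exact h3.2
      · have h3 := (hym k' k).1
        have h4 : N₂ * y false k' < N₂ * y true k := Nat.mul_lt_mul_of_pos_left h3 hN₂
        simp only [Bool.false_eq_true, if_false, zero_add] at hlt
        omega
      · exact absurd rfl hne'
    · simp only [Bool.false_eq_true, if_false, zero_add, if_true]
      exact (hcross b₁ b₁' k k').2
    · have h3 := (hcross b₁' b₁ k' k).1
      simp only [Bool.false_eq_true, if_false, zero_add, if_true] at hlt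
      omega
    · cases b₁ <;> cases b₁'
      · exact absurd rfl hne'
      · have h3 := hym k k'
        simp only [if_true]
        rw [Nat.add_sub_add_left, ← Nat.mul_sub]
        exact h3.2
      · have h3 := (hym k' k).1
        have h4 : N₂ * y false k' < N₂ * y true k := Nat.mul_lt_mul_of_pos_left h3 hN₂
        simp only [if_true] at hlt
        omega
      · exact absurd rfl hne'
  obtain ⟨g, g', k, k', hne, hlt, hG⟩ := h4 A (by
    rintro ⟨g, k⟩ ⟨g', k'⟩ h
    have h' : A g k = A g' k' := h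
    rw [hA] at h'
    simp only at h'
    rcases hg : e g with ⟨b, b₁⟩
    rcases hg' : e g' with ⟨b', b₁'⟩
    rw [hg, hg'] at h'
    simp only at h'
    have hbb : (b, b₁) = (b', b₁') := by
      cases b <;> cases b'
      · cases b₁ <;> cases b₁'
        · rfl
        · have h4 : N₂ * y false k < N₂ * y true k' := Nat.mul_lt_mul_of_pos_left (hym k k').1 hN₂
          simp only [Bool.false_eq_true, if_false, zero_add] at h'
          omega
        · have h4 : N₂ * y false k' < N₂ * y true k := Nat.mul_lt_mul_of_pos_left (hym k' k).1 hN₂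
          simp only [Bool.false_eq_true, if_false, zero_add] at h'
          omega
        · rfl
      · have h3 := (hcross b₁ b₁' k k').1
        simp only [Bool.false_eq_true, if_false, zero_add, if_true] at h'
        omega
      · have h3 := (hcross b₁' b₁ k' k).1
        simp only [Bool.false_eq_true, if_false, zero_add, if_true] at h'
        omega
      · cases b₁ <;> cases b₁'
        · rfl
        · have h4 : N₂ * y false k < N₂ * y true k' := Nat.mul_lt_mul_of_pos_left (hym k k').1 hN₂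
          simp only [if_true] at h'
          omega
        · have h4 : N₂ * y false k' < N₂ * y true k := Nat.mul_lt_mul_of_pos_left (hym k' k).1 hN₂
          simp only [if_true] at h'
          omega
        · rfl
    have hgg : g = g' := e.injective (by rw [hg, hg', hbb])
    obtain ⟨rfl, rfl⟩ := Prod.mk.inj hbb
    have h5 : N₂ * y b₁ k = N₂ * y b₁ k' := by omega
    rw [hgg, hyinj b₁ k k' (Nat.eq_of_mul_eq_mul_left hN₂ h5)]) (by
    have hz : ∀ g k, A g k ≡ 0 [MOD L] := by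
      intro g k
      rw [Nat.modEq_zero_iff_dvd, hA]
      apply dvd_add
      · split_ifs
        · exact Dvd.dvd.mul_right hL _
        · exact dvd_zero _
      · refine Dvd.dvd.mul_right (hL.trans ?_) _
        rw [hj, mul_assoc]
        exact dvd_mul_right _ _
    intro g k g' k'
    exact (hz g k).trans (hz g' k').symm)
  exact key g g' k k' hne hlt hG


/-- the lower density is at least one half for all multiples of some number -/
theorem exact_half {K L : ℕ} (hL : 0 < L) {G : Set ℕ} (h4 : FourAll K L G) :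
    ∃ M : ℕ, 0 < M ∧ ∀ N : ℕ, 0 < N → M ∣ N → ∀ ε : ℝ, 0 < ε → ∃ L₀ : ℕ, Half ε L₀ (dil N G) := by
  rcases dichotomy hL h4 with h | ⟨β, hβ, M, hM, h⟩
  · refine ⟨L, hL, fun N hN hd ε hε => ?_⟩
    obtain ⟨j, rfl⟩ := hd
    have hj : 0 < j := Nat.pos_of_ne_zero (by rintro rfl; simp at hN)
    exact h j hj ε hε
  · refine ⟨M, hM, fun N hN hd ε hε => ?_⟩
    obtain ⟨L₀, hL₀⟩ := h N hN hd
    refine ⟨L₀, fun T hT u => le_trans ?_ (hL₀ T hT u)⟩
    have hT0 : (0 : ℝ) ≤ T := Nat.cast_nonneg T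
    nlinarith

/-- **density one** -/
theorem strong {K : ℕ} (hK : 1 ≤ K) : ∃ c : ℝ → ℝ, (∀ δ, 0 < δ → 0 < c δ) ∧ ∀ (L : ℕ) (G : Set ℕ), 0 < L →
    FourAll K L G → ∃ M : ℕ, 0 < M ∧ ∀ N : ℕ, 0 < N → M ∣ N → ∀ α β : ℕ, 0 < α → 0 < β → ∀ δ : ℝ, 0 < δ →
      ∃ T₀ : ℕ, ∀ T : ℕ, T₀ ≤ T → ∀ u : ℕ,
      (((Ioc u (u + T)).filter (fun h => (rep (dil (N * β) G) (dil (N * α) G) h : ℝ) < c δ * h)).card : ℝ) ≤ δ * T ∧
      ∀ X : ℕ, 2 * (u + T) ≤ X →
      (((Ioc u (u + T)).filter (fun h => (repd (dil (N * α) G) (dil (N * β) G) X h : ℝ) < c δ * X)).card : ℝ) ≤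
        δ * T := by
  have hfac : ∀ δ : ℝ, (0 : ℝ) < 800 * (⌈4 / δ⌉₊).factorial * ((4 * K * K + 2 * K : ℕ) + 1) := by
    intro δ
    have : (0 : ℝ) < (⌈4 / δ⌉₊).factorial := by exact_mod_cast Nat.factorial_pos _
    positivity
  refine ⟨fun δ => δ / (800 * (⌈4 / δ⌉₊).factorial * ((4 * K * K + 2 * K : ℕ) + 1)), fun δ hδ => div_pos hδ (hfac δ), ?_⟩
  intro L G hL h4
  obtain ⟨M₀, hM₀, hhalf⟩ := exact_half hL h4
  by_contra hcon
  push Not at hcon
  have hlev : ∀ M : ℕ, 0 < M → M₀ ∣ M → ∃ N m : ℕ, 0 < N ∧ 0 < m ∧ M ∣ N ∧ Rich m (4 * K * K + 2 * K) (dil N G) := by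
    intro M hM hMM
    obtain ⟨N, hN, hd, α, β, hα, hβ, δ, hδ, hbad⟩ := hcon M hM
    have hδ1 : δ ≤ 1 := by
      by_contra hlt
      push Not at hlt
      have h0 : ∀ (P : ℕ → Prop) (u T : ℕ), (((Ioc u (u + T)).filter P).card : ℝ) ≤ δ * T := by
        intro P u T
        have h1 : ((Ioc u (u + T)).filter P).card ≤ T := by
          refine (card_filter_le _ _).trans ?_
          rw [Nat.card_Ioc]
          omega
        have h2 : (((Ioc u (u + T)).filter P).card : ℝ) ≤ T := by exact_mod_cast h1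
        have h3 : (0 : ℝ) ≤ T := Nat.cast_nonneg _
        nlinarith
      obtain ⟨T, -, u, hu⟩ := hbad 0
      obtain ⟨X, -, hX⟩ := hu (h0 _ u T)
      exact absurd (h0 _ u T) (not_le.2 hX)
    obtain ⟨c, hcdef⟩ : ∃ c : ℝ, c = δ / (800 * (⌈4 / δ⌉₊).factorial * ((4 * K * K + 2 * K : ℕ) + 1)) := ⟨_, rfl⟩
    rw [← hcdef] at hbad
    have hc : 0 < c := by rw [hcdef]; exact div_pos hδ (hfac δ)
    have hcs : c * (800 * (⌈4 / δ⌉₊).factorial * ((4 * K * K + 2 * K : ℕ) + 1)) ≤ δ := by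
      rw [hcdef, div_mul_cancel₀ _ (hfac δ).ne']
    obtain ⟨L₁, hL₁⟩ := hhalf (N * α) (Nat.mul_pos hN hα) ((hMM.trans hd).trans (dvd_mul_right N α)) c hc
    obtain ⟨L₂, hL₂⟩ := hhalf (N * β) (Nat.mul_pos hN hβ) ((hMM.trans hd).trans (dvd_mul_right N β)) c hc
    have hL₁' : Half c (max L₁ L₂) (dil (N * α) G) := fun T hT u => hL₁ T ((le_max_left _ _).trans hT) u
    have hL₂' : Half c (max L₁ L₂) (dil (N * β) G) := fun T hT u => hL₂ T ((le_max_right _ _).trans hT) u
    by_cases hb : Bad δ c (dil (N * β) G) (dil (N * α) G)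
    · exact ⟨N * α, (⌈4 / δ⌉₊).factorial, Nat.mul_pos hN hα, Nat.factorial_pos _, hd.trans (dvd_mul_right N α),
        fun F hF hFm => find hδ hδ1 (Nat.le_ceil _) hc hcs hL₂' hL₁' hb F hF hFm⟩
    · refine ⟨N * β, (⌈4 / δ⌉₊).factorial, Nat.mul_pos hN hβ, Nat.factorial_pos _, hd.trans (dvd_mul_right N β),
        fun F hF hFm => findd hδ hδ1 (Nat.le_ceil _) hc hcs hL₁' hL₂' ?_ F hF hFm⟩
      unfold Bad at hb
      push Not at hb
      obtain ⟨T₁, hT₁⟩ := hb
      intro T₂
      obtain ⟨T, hT, u, hu⟩ := hbad (T₁ + T₂)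
      obtain ⟨X, hX1, hX2⟩ := hu (hT₁ T (by omega) u)
      exact ⟨T, by omega, u, X, hX1, hX2⟩
  obtain ⟨N₁, m₁, hN₁, hm₁, hd₁, hr₁⟩ := hlev (L * M₀) (Nat.mul_pos hL hM₀) (dvd_mul_left M₀ L)
  obtain ⟨N₂, m₂, hN₂, hm₂, hd₂, hr₂⟩ := hlev (N₁ * m₁) (Nat.mul_pos hN₁ hm₁)
    (((dvd_mul_left M₀ L).trans hd₁).trans (dvd_mul_right N₁ _))
  exact two_levels' hK h4 hm₂ hN₁ hN₂ ((dvd_mul_right L M₀).trans hd₁) hd₂ hr₁ hr₂

end Pool.Agent.HP27.GD
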