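import Mathlib
import Pool.Agent.HP27.GD.Strong

set_option autoImplicit false

/-!
# All multiples of some number are differences

Let `G` meet the differences of any four classes. Then there is `M` such that every multiple `h` of `M` is a
difference of two elements of `G`: the numbers `x` with `x` and `x + h` in `G` have positive upper Banach density.
-/

namespace Pool.Agent.HP27.GD

open Finset Filter Classical
open Pool.Agent.HP27.TG (FourAll dil cnt)

/-- the number of the `x` in `(u, u + T]` with `x` and `x + n` in `D` -/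
noncomputable def rr (D : Set ℕ) (n u T : ℕ) : ℕ := ((Ioc u (u + T)).filter (fun x => x ∈ D ∧ x + n ∈ D)).card

/-- the numbers `x` with `x` and `x + n` in `D` have positive upper Banach density -/
def Often (D : Set ℕ) (n : ℕ) : Prop := ∃ c : ℝ, 0 < c ∧ ∀ L₀ : ℕ, ∃ T ≥ L₀, ∃ u : ℕ, c * T ≤ (rr D n u T : ℝ)

theorem cnt_shift (D : Set ℕ) (n u T : ℕ) : ((Ioc u (u + T)).filter (fun x => x + n ∈ D)).card = cnt D (u + n) T := by
  unfold cnt
  apply card_bij (fun x _ => x + n)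
  · intro x hx
    rw [mem_filter, mem_Ioc] at hx ⊢
    exact ⟨⟨by omega, by omega⟩, hx.2⟩
  · intro x _ y _ hxy
    omega
  · intro y hy
    rw [mem_filter, mem_Ioc] at hy
    refine ⟨y - n, ?_, by omega⟩
    rw [mem_filter, mem_Ioc]
    have : y - n + n = y := by omega
    rw [this]
    exact ⟨⟨by omega, by omega⟩, hy.2⟩

/-- counting -/
theorem count4 (D : Set ℕ) (n u T : ℕ) :
    ((Ioc u (u + T)).filter (fun x => (x ∈ D ↔ x + n ∈ D))).card + (cnt D u T + cnt D (u + n) T) = T + 2 * rr D n u T := by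
  rw [← cnt_shift]
  have e0 : (Ioc u (u + T)).card = T := by rw [Nat.card_Ioc]; omega
  have e1 : ((Ioc u (u + T)).filter (fun x => (x ∈ D ↔ x + n ∈ D))).card =
      ∑ x ∈ Ioc u (u + T), (if (x ∈ D ↔ x + n ∈ D) then 1 else 0) := by rw [card_filter]
  have e2 : cnt D u T = ∑ x ∈ Ioc u (u + T), (if x ∈ D then 1 else 0) := by unfold cnt; rw [card_filter]
  have e3 : ((Ioc u (u + T)).filter (fun x => x + n ∈ D)).card =
      ∑ x ∈ Ioc u (u + T), (if x + n ∈ D then 1 else 0) := by rw [card_filter]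
  have e4 : rr D n u T = ∑ x ∈ Ioc u (u + T), (if x ∈ D ∧ x + n ∈ D then 1 else 0) := by unfold rr; rw [card_filter]
  have e5 : T = ∑ x ∈ Ioc u (u + T), 1 := by rw [← card_eq_sum_ones, e0]
  calc _ = ∑ x ∈ Ioc u (u + T), ((if (x ∈ D ↔ x + n ∈ D) then 1 else 0) +
        ((if x ∈ D then 1 else 0) + (if x + n ∈ D then 1 else 0))) := by
        rw [sum_add_distrib, sum_add_distrib, ← e1, ← e2, ← e3]
    _ = ∑ x ∈ Ioc u (u + T), (1 + 2 * (if x ∈ D ∧ x + n ∈ D then 1 else 0)) := by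
        apply sum_congr rfl
        intro x _
        by_cases hx : x ∈ D <;> by_cases hy : x + n ∈ D <;> simp [hx, hy]
    _ = _ := by rw [sum_add_distrib, ← mul_sum, ← e4, ← e5]

/-- dilation -/
theorem often_dil {N : ℕ} (hN : 0 < N) {G : Set ℕ} {n : ℕ} (h : Often (dil N G) n) : Often G (N * n) := by
  obtain ⟨c, hc, h⟩ := h
  have hN0 : (0 : ℝ) < N := by exact_mod_cast hN
  refine ⟨c / N, by positivity, fun L₀ => ?_⟩
  obtain ⟨T, hT, u, hu⟩ := h L₀
  refine ⟨N * T, le_trans hT (Nat.le_mul_of_pos_left T hN), N * u, ?_⟩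
  have h1 : rr (dil N G) n u T ≤ rr G (N * n) (N * u) (N * T) := by
    unfold rr
    apply card_le_card_of_injOn (fun x => N * x)
    · intro x hx
      rw [mem_coe, mem_filter, mem_Ioc] at hx ⊢
      obtain ⟨⟨h1, h2⟩, h3, h4⟩ := hx
      have h5 : N * (x + n) ∈ G := h4
      refine ⟨⟨Nat.mul_lt_mul_of_pos_left h1 hN, ?_⟩, h3, ?_⟩
      · have := Nat.mul_le_mul_left N h2
        rwa [mul_add] at this
      · rwa [mul_add] at h5
    · intro x _ y _ hxy
      exact Nat.eq_of_mul_eq_mul_left hN hxy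
  have h2 : (rr (dil N G) n u T : ℝ) ≤ rr G (N * n) (N * u) (N * T) := by exact_mod_cast h1
  have h3 : c / N * ((N * T : ℕ) : ℝ) = c * T := by
    push_cast
    field_simp
  rw [h3]
  exact hu.trans h2

/-- if `n₁` is not often a difference then all the even multiples of `n₁` are -/
theorem even_multiple {D : Set ℕ} (hD : ∀ ε : ℝ, 0 < ε → ∃ L₀ : ℕ, ∀ T : ℕ, L₀ ≤ T → ∀ u : ℕ, (1 / 2 - ε) * T ≤ cnt D u T)
    {n₁ : ℕ} (hbad : ¬ Often D n₁) {k : ℕ} (hk : 0 < k) : Often D (2 * k * n₁) := by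
  unfold Often at hbad
  push Not at hbad
  have hk0 : (0 : ℝ) < k := by exact_mod_cast hk
  have hk1 : (1 : ℝ) ≤ k := by exact_mod_cast hk
  obtain ⟨c, hcdef⟩ : ∃ c : ℝ, c = 1 / (64 * k) := ⟨_, rfl⟩
  have hc : 0 < c := by rw [hcdef]; positivity
  have hck : c * k = 1 / 64 := by rw [hcdef]; field_simp
  obtain ⟨L₁, hL₁⟩ := hbad c hc
  obtain ⟨L₂, hL₂⟩ := hD c hc
  refine ⟨1 / 4, by norm_num, fun L₀ => ⟨L₀ + L₁ + L₂ + 1, by omega, 0, ?_⟩⟩
  obtain ⟨T, hT⟩ : ∃ T, T = L₀ + L₁ + L₂ + 1 := ⟨_, rfl⟩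
  rw [← hT]
  have hT0 : (0 : ℝ) ≤ T := Nat.cast_nonneg T
  -- few failures of alternation in every window
  have hfew : ∀ u : ℕ, (((Ioc u (u + T)).filter (fun x => (x ∈ D ↔ x + n₁ ∈ D))).card : ℝ) ≤ 4 * c * T := by
    intro u
    have h1 := count4 D n₁ u T
    have h2 : (((Ioc u (u + T)).filter (fun x => (x ∈ D ↔ x + n₁ ∈ D))).card : ℝ) +
        ((cnt D u T : ℝ) + cnt D (u + n₁) T) = T + 2 * (rr D n₁ u T : ℝ) := by exact_mod_cast h1
    have h3 := hL₁ T (by omega) u
    have h4 := hL₂ T (by omega) u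
    have h5 := hL₂ T (by omega) (u + n₁)
    nlinarith
  -- the exceptional points
  obtain ⟨X, hX⟩ : ∃ X : ℕ → Finset ℕ, X = fun i => (Ioc 0 (0 + T)).filter
      (fun x => (x + i * n₁ ∈ D ↔ x + (i + 1) * n₁ ∈ D)) := ⟨_, rfl⟩
  have hXc : ∀ i, ((X i).card : ℝ) ≤ 4 * c * T := by
    intro i
    refine le_trans ?_ (hfew (i * n₁))
    rw [Nat.cast_le, hX]
    apply card_le_card_of_injOn (fun x => x + i * n₁)
    · intro x hx
      rw [mem_coe, mem_filter, mem_Ioc] at hx ⊢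
      beta_reduce
      refine ⟨⟨by omega, by omega⟩, ?_⟩
      have e : x + i * n₁ + n₁ = x + (i + 1) * n₁ := by ring
      rw [e]
      exact hx.2
    · intro x _ y _ hxy
      have h : x + i * n₁ = y + i * n₁ := hxy
      omega
  have hchain : ∀ x ∈ Ioc 0 (0 + T), x ∉ (range (2 * k)).biUnion X → ∀ i, i ≤ 2 * k →
      (x + i * n₁ ∈ D ↔ (x ∈ D ↔ Even i)) := by
    intro x hx hxX i
    induction i with
    | zero => intro _; simp
    | succ i ih =>
      intro hi
      have h1 : ¬ (x + i * n₁ ∈ D ↔ x + (i + 1) * n₁ ∈ D) := by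
        intro h
        apply hxX
        rw [mem_biUnion]
        refine ⟨i, mem_range.2 (by omega), ?_⟩
        rw [hX]
        exact mem_filter.2 ⟨hx, h⟩
      have h2 := ih (by omega)
      rw [Nat.even_add_one]
      tauto
  have hcard : ((((range (2 * k)).biUnion X)).card : ℝ) ≤ 2 * k * (4 * c * T) := by
    have h1 : (((range (2 * k)).biUnion X).card : ℝ) ≤ ∑ i ∈ range (2 * k), ((X i).card : ℝ) := by
      exact_mod_cast card_biUnion_le
    refine h1.trans ((sum_le_sum fun i _ => hXc i).trans (le_of_eq ?_))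
    rw [sum_const, card_range, nsmul_eq_mul]
    push_cast
    ring
  have hmain : cnt D 0 T ≤ rr D (2 * k * n₁) 0 T + ((range (2 * k)).biUnion X).card := by
    unfold cnt rr
    refine (card_le_card ?_).trans (card_union_le _ _)
    intro x hx
    rw [mem_filter] at hx
    rw [mem_union]
    by_cases hxX : x ∈ (range (2 * k)).biUnion X
    · exact Or.inr hxX
    · left
      rw [mem_filter]
      refine ⟨hx.1, hx.2, ?_⟩
      have h1 := hchain x hx.1 hxX (2 * k) le_rfl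
      exact h1.2 (by simp [hx.2])
  have hmain' : (cnt D 0 T : ℝ) ≤ (rr D (2 * k * n₁) 0 T : ℝ) + (((range (2 * k)).biUnion X).card : ℝ) := by
    exact_mod_cast hmain
  have h6 := hL₂ T (by omega) 0
  have hc2 : c ≤ 1 / 64 := by
    rw [← hck]
    nlinarith
  have h7 : 2 * k * (4 * c * T) = 1 / 8 * T := by
    calc 2 * k * (4 * c * T) = 8 * (c * k) * T := by ring
      _ = 1 / 8 * T := by rw [hck]; ring
  nlinarith

/-- **all multiples of some number are differences** -/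
theorem diffs {K L : ℕ} (hL : 0 < L) {G : Set ℕ} (h4 : FourAll K L G) :
    ∃ M : ℕ, 0 < M ∧ ∀ h : ℕ, 0 < h → M ∣ h → Often G h := by
  rcases dichotomy hL h4 with hI | ⟨β, hβ, M, hM, hII⟩
  · have hD : ∀ ε : ℝ, 0 < ε → ∃ L₀ : ℕ, ∀ T : ℕ, L₀ ≤ T → ∀ u : ℕ, (1 / 2 - ε) * T ≤ cnt (dil L G) u T := by
      intro ε hε
      have := hI 1 one_pos ε hε
      rwa [mul_one] at this
    by_cases hb : ∃ n₁, 0 < n₁ ∧ ¬ Often (dil L G) n₁
    · obtain ⟨n₁, hn₁, hb⟩ := hb
      refine ⟨L * (2 * n₁), by positivity, fun h hh hd => ?_⟩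
      obtain ⟨k, rfl⟩ := hd
      have hk : 0 < k := Nat.pos_of_ne_zero (by rintro rfl; simp at hh)
      have e : L * (2 * n₁) * k = L * (2 * k * n₁) := by ring
      rw [e]
      exact often_dil hL (even_multiple hD hb hk)
    · push Not at hb
      refine ⟨L, hL, fun h hh hd => ?_⟩
      obtain ⟨k, rfl⟩ := hd
      have hk : 0 < k := Nat.pos_of_ne_zero (by rintro rfl; simp at hh)
      exact often_dil hL (hb k hk)
  · refine ⟨M, hM, fun h hh hd => ?_⟩
    obtain ⟨k, rfl⟩ := hd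
    apply often_dil hM
    obtain ⟨L₀, hL₀⟩ := hII M hM dvd_rfl
    refine ⟨2 * β, by positivity, fun L₁ => ⟨L₀ + L₁, by omega, 0, ?_⟩⟩
    obtain ⟨T, hT⟩ : ∃ T, T = L₀ + L₁ := ⟨_, rfl⟩
    rw [← hT]
    have h1 := count4 (dil M G) k 0 T
    have h2 : (((Ioc 0 (0 + T)).filter (fun x => (x ∈ dil M G ↔ x + k ∈ dil M G))).card : ℝ) +
        ((cnt (dil M G) 0 T : ℝ) + cnt (dil M G) (0 + k) T) = T + 2 * (rr (dil M G) k 0 T : ℝ) := by exact_mod_cast h1
    have h4 := hL₀ T (by omega) 0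
    have h5 := hL₀ T (by omega) (0 + k)
    have h6 : (rr (dil M G) k 0 T : ℝ) ≤ (((Ioc 0 (0 + T)).filter (fun x => (x ∈ dil M G ↔ x + k ∈ dil M G))).card : ℝ) := by
      rw [Nat.cast_le]
      unfold rr
      apply card_le_card
      intro x hx
      rw [mem_filter] at hx ⊢
      exact ⟨hx.1, iff_of_true hx.2.1 hx.2.2⟩
    linarith

end Pool.Agent.HP27.GD
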