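import Mathlib
import Pool.Agent.HP27.GD.Diff

set_option autoImplicit false

/-!
# All multiples of some number are differences, in every long interval

Let `G` meet the differences of any four classes. Then there is `M` such that for every multiple `h` of `M` the numbers `x`
with `x` and `x + h` in `G` have positive LOWER Banach density.
-/

namespace Pool.Agent.HP27.GD

open Finset Filter Classical
open Pool.Agent.HP27.TG (FourAll dil cnt)

/-- the numbers `x` with `x` and `x + n` in `D` have positive lower Banach density -/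
def OftenL (D : Set ℕ) (n : ℕ) : Prop := ∃ c : ℝ, 0 < c ∧ ∃ L₀ : ℕ, ∀ T ≥ L₀, ∀ u : ℕ, c * T ≤ (rr D n u T : ℝ)

/-- few failures of alternation in a window, for all the shifts of bounded size -/
theorem window {D : Set ℕ} (hD : ∀ ε : ℝ, 0 < ε → ∃ L₀ : ℕ, ∀ T : ℕ, L₀ ≤ T → ∀ u : ℕ, (1 / 2 - ε) * T ≤ cnt D u T)
    {n : ℕ} (hbad : ¬ OftenL D n) {η : ℝ} (hη : 0 < η) (J L₁ : ℕ) : ∃ T ≥ L₁, ∃ u : ℕ,
      (((Ioc u (u + T)).filter (fun x : ℕ => ∃ j ≤ J, (x + j ∈ D ↔ x + j + n ∈ D))).card : ℝ) ≤ η * T := by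
  unfold OftenL at hbad
  push Not at hbad
  obtain ⟨c, hcdef⟩ : ∃ c : ℝ, c = η / (8 * (J + 1)) := ⟨_, rfl⟩
  have hJ0 : (0 : ℝ) < J + 1 := by positivity
  have hc : 0 < c := by rw [hcdef]; positivity
  have hcη : (J + 1) * (8 * c) = η := by
    rw [hcdef]
    field_simp
  obtain ⟨L₂, hL₂⟩ := hD c hc
  obtain ⟨T, hT, u, hu⟩ := hbad c hc (L₁ + L₂ + 2 * J + 1)
  have hT0 : (0 : ℝ) ≤ T := Nat.cast_nonneg T
  have hfew : (((Ioc u (u + T)).filter (fun x => (x ∈ D ↔ x + n ∈ D))).card : ℝ) ≤ 4 * c * T := by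
    have h1 := count4 D n u T
    have h2 : (((Ioc u (u + T)).filter (fun x => (x ∈ D ↔ x + n ∈ D))).card : ℝ) +
        ((cnt D u T : ℝ) + cnt D (u + n) T) = T + 2 * (rr D n u T : ℝ) := by exact_mod_cast h1
    have h4 := hL₂ T (by omega) u
    have h5 := hL₂ T (by omega) (u + n)
    nlinarith
  refine ⟨T - J, by omega, u, ?_⟩
  have hsub : (Ioc u (u + (T - J))).filter (fun x : ℕ => ∃ j ≤ J, (x + j ∈ D ↔ x + j + n ∈ D)) ⊆
      (range (J + 1)).biUnion (fun j => ((Ioc u (u + T)).filter (fun x => (x ∈ D ↔ x + n ∈ D))).image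
        (fun x => x - j)) := by
    intro x hx
    rw [mem_filter, mem_Ioc] at hx
    obtain ⟨⟨hx1, hx2⟩, j, hj, hjx⟩ := hx
    rw [mem_biUnion]
    refine ⟨j, mem_range.2 (by omega), ?_⟩
    rw [mem_image]
    exact ⟨x + j, mem_filter.2 ⟨mem_Ioc.2 ⟨by omega, by omega⟩, hjx⟩, by omega⟩
  have h2 := (card_le_card hsub).trans card_biUnion_le
  have h3 : ∑ j ∈ range (J + 1), (((Ioc u (u + T)).filter (fun x => (x ∈ D ↔ x + n ∈ D))).image
      (fun x => x - j)).card ≤
      ∑ _j ∈ range (J + 1), ((Ioc u (u + T)).filter (fun x => (x ∈ D ↔ x + n ∈ D))).card :=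
    sum_le_sum fun j _ => card_image_le
  rw [sum_const, card_range, smul_eq_mul] at h3
  have h5 : (((Ioc u (u + (T - J))).filter (fun x : ℕ => ∃ j ≤ J, (x + j ∈ D ↔ x + j + n ∈ D))).card : ℝ) ≤
      ((J + 1 : ℕ) : ℝ) * (((Ioc u (u + T)).filter (fun x => (x ∈ D ↔ x + n ∈ D))).card : ℝ) := by
    exact_mod_cast h2.trans h3
  have h6 : ((T - J : ℕ) : ℝ) = T - J := Nat.cast_sub (by omega)
  have h7 : (2 * (J : ℝ)) ≤ T := by exact_mod_cast (by omega : 2 * J ≤ T)
  rw [h6]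
  refine h5.trans ?_
  push_cast
  calc ((J : ℝ) + 1) * (((Ioc u (u + T)).filter (fun x => (x ∈ D ↔ x + n ∈ D))).card : ℝ)
      ≤ (J + 1) * (4 * c * T) := mul_le_mul_of_nonneg_left hfew hJ0.le
    _ = (J + 1) * (8 * c) * (T / 2) := by ring
    _ = η * (T / 2) := by rw [hcη]
    _ ≤ η * (T - J) := mul_le_mul_of_nonneg_left (by linarith) hη.le

/-- a multiple `x` of `N` such that `x + j n` is in `D` exactly if `j` is even -/
theorem pointA {D : Set ℕ} (hD : ∀ ε : ℝ, 0 < ε → ∃ L₀ : ℕ, ∀ T : ℕ, L₀ ≤ T → ∀ u : ℕ, (1 / 2 - ε) * T ≤ cnt D u T)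
    {N : ℕ} (hN : 0 < N) (hDN : ∀ ε : ℝ, 0 < ε → ∃ L₀ : ℕ, ∀ T : ℕ, L₀ ≤ T → ∀ u : ℕ, (1 / 2 - ε) * T ≤ cnt (dil N D) u T)
    {n : ℕ} (hbad : ¬ OftenL D n) (J : ℕ) : ∃ x, N ∣ x ∧ ∀ j ≤ J, (x + j * n ∈ D ↔ Even j) := by
  have hN0 : (0 : ℝ) < N := by exact_mod_cast hN
  obtain ⟨L₂, hL₂⟩ := hDN (1 / 4) (by norm_num)
  obtain ⟨T, hT, u, hu⟩ := window hD hbad (η := 1 / (16 * N)) (by positivity) (J * n) (N * (L₂ + 8) + 1)
  have hT0 : (0 : ℝ) < T := by exact_mod_cast (by omega : 0 < T)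
  have hdiv : L₂ + 8 ≤ T / N := by
    rw [Nat.le_div_iff_mul_le hN]
    have : (L₂ + 8) * N = N * (L₂ + 8) := mul_comm _ _
    omega
  have hc := hL₂ (T / N - 2) (by omega) (u / N + 1)
  -- the multiples of `N` in `D`
  have hsub : cnt (dil N D) (u / N + 1) (T / N - 2) ≤
      ((Ioc u (u + T)).filter (fun x => N ∣ x ∧ x ∈ D)).card := by
    unfold cnt
    apply card_le_card_of_injOn (fun k => N * k)
    · intro k hk
      rw [mem_coe, mem_filter, mem_Ioc] at hk ⊢
      obtain ⟨⟨h1, h2⟩, h3⟩ := hk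
      beta_reduce
      have h4 : u < N * (u / N) + N := by
        have := Nat.lt_mul_div_succ u hN
        rwa [mul_add, mul_one] at this
      have h5 : N * (u / N) ≤ u := Nat.mul_div_le u N
      have h6 : N * (T / N) ≤ T := Nat.mul_div_le T N
      have h7 : N * (u / N + 1) ≤ N * k := Nat.mul_le_mul_left N h1.le
      have h8 : N * k ≤ N * (u / N + 1 + (T / N - 2)) := Nat.mul_le_mul_left N h2
      have h9 : N * (u / N + 1 + (T / N - 2)) = N * (u / N) + N * (T / N - 1) := by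
        rw [← mul_add]
        congr 1
        omega
      have h10 : N * (T / N - 1) ≤ N * (T / N) := Nat.mul_le_mul_left N (by omega)
      have h11 : N * (u / N + 1) = N * (u / N) + N := by ring
      refine ⟨⟨by omega, by omega⟩, dvd_mul_right N k, h3⟩
    · intro x _ y _ hxy
      exact Nat.eq_of_mul_eq_mul_left hN hxy
  have hlow : (T : ℝ) / (16 * N) < (((Ioc u (u + T)).filter (fun x => N ∣ x ∧ x ∈ D)).card : ℝ) := by
    have h1 : (cnt (dil N D) (u / N + 1) (T / N - 2) : ℝ) ≤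
        (((Ioc u (u + T)).filter (fun x => N ∣ x ∧ x ∈ D)).card : ℝ) := by exact_mod_cast hsub
    refine lt_of_lt_of_le ?_ h1
    refine lt_of_lt_of_le ?_ hc
    have h2 : ((T / N - 2 : ℕ) : ℝ) = ((T / N : ℕ) : ℝ) - 2 := by
      rw [Nat.cast_sub (by omega)]
      norm_num
    have h3 : (T : ℝ) < N * ((T / N : ℕ) : ℝ) + N := by
      have := Nat.lt_mul_div_succ T hN
      rw [mul_add, mul_one] at this
      exact_mod_cast this
    have h4 : (8 : ℝ) ≤ ((T / N : ℕ) : ℝ) := by exact_mod_cast (by omega : 8 ≤ T / N)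
    rw [h2, div_lt_iff₀ (by positivity)]
    nlinarith
  -- a good one
  obtain ⟨x, hx1, hx2⟩ : ∃ x ∈ (Ioc u (u + T)).filter (fun x => N ∣ x ∧ x ∈ D),
      x ∉ (Ioc u (u + T)).filter (fun x : ℕ => ∃ j ≤ J * n, (x + j ∈ D ↔ x + j + n ∈ D)) := by
    by_contra hcon
    push Not at hcon
    have h1 : (((Ioc u (u + T)).filter (fun x => N ∣ x ∧ x ∈ D)).card : ℝ) ≤
        (((Ioc u (u + T)).filter (fun x : ℕ => ∃ j ≤ J * n, (x + j ∈ D ↔ x + j + n ∈ D))).card : ℝ) := by
      rw [Nat.cast_le]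
      exact card_le_card hcon
    have h2 : 1 / (16 * (N : ℝ)) * T = T / (16 * N) := by ring
    rw [h2] at hu
    linarith
  rw [mem_filter] at hx1 hx2
  refine ⟨x, hx1.2.1, ?_⟩
  have hfl : ∀ j ≤ J * n, ¬ (x + j ∈ D ↔ x + j + n ∈ D) := by
    intro j hj h
    exact hx2 ⟨hx1.1, j, hj, h⟩
  intro j
  induction j with
  | zero => intro _; simp [hx1.2.2]
  | succ j ih =>
    intro hj
    have h1 := ih (by omega)
    have h2 := hfl (j * n) (Nat.mul_le_mul_right n (by omega))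
    have e : x + (j + 1) * n = x + j * n + n := by ring
    rw [e, Nat.even_add_one]
    tauto

/-- a number `y` such that `y + j` and `y + j + n` are never both in `D` or both not in `D`, for all small `j` -/
theorem pointB {D : Set ℕ} (hD : ∀ ε : ℝ, 0 < ε → ∃ L₀ : ℕ, ∀ T : ℕ, L₀ ≤ T → ∀ u : ℕ, (1 / 2 - ε) * T ≤ cnt D u T)
    {n : ℕ} (hbad : ¬ OftenL D n) (J : ℕ) : ∃ y, ∀ j ≤ J, ¬ (y + j ∈ D ↔ y + j + n ∈ D) := by
  obtain ⟨T, hT, u, hu⟩ := window hD hbad (η := 1 / 2) (by norm_num) J 1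
  by_contra hcon
  push Not at hcon
  have h1 : (Ioc u (u + T)).filter (fun x : ℕ => ∃ j ≤ J, (x + j ∈ D ↔ x + j + n ∈ D)) = Ioc u (u + T) := by
    apply filter_true_of_mem
    intro x _
    exact hcon x
  rw [h1, Nat.card_Ioc] at hu
  have h2 : u + T - u = T := by omega
  rw [h2] at hu
  have h3 : (1 : ℝ) ≤ T := by exact_mod_cast hT
  linarith

/-- the combinatorial lemma -/
theorem three_zeros {χ : ℕ → Prop} {m Z : ℕ} (hm : 0 < m) (h4 : 4 ∣ m) (hflip : ∀ j ≤ Z + 6 * m + 6, (χ (j + m) ↔ ¬ χ j)) :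
    ∃ x a : ℕ, Z + m + 1 ≤ x ∧ x ≤ Z + 3 * m + 1 ∧ (a = 1 ∨ a = m + 1) ∧ ¬ χ x ∧ ¬ χ (x - a) ∧ ¬ χ (x + a) := by
  by_contra hcon
  push Not at hcon
  -- exactly one of the neighbours
  have key0 : ∀ p, Z + m + 1 ≤ p → p ≤ Z + 3 * m + 1 → ¬ χ p → (χ (p + 1) ↔ ¬ χ (p - 1)) := by
    intro p hp1 hp2 hp
    have h1 := hcon p 1 hp1 hp2 (Or.inl rfl) hp
    have h2 := hcon p (m + 1) hp1 hp2 (Or.inr rfl) hp
    have h3 := hflip (p - (m + 1)) (by omega)
    have e3 : p - (m + 1) + m = p - 1 := by omega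
    rw [e3] at h3
    have h4 := hflip (p + 1) (by omega)
    have e4 : p + 1 + m = p + (m + 1) := by omega
    rw [e4] at h4
    tauto
  have key : ∀ p, Z + m + 1 ≤ p → p ≤ Z + 2 * m + 1 → (χ (p + 1) ↔ ¬ χ (p - 1)) := by
    intro p hp1 hp2
    by_cases hp : χ p
    · have h1 := key0 (p + m) (by omega) (by omega) (by
        rw [hflip p (by omega)]
        exact not_not.2 hp)
      have h2 := hflip (p + 1) (by omega)
      have h3 := hflip (p - 1) (by omega)
      have e2 : p + 1 + m = p + m + 1 := by omega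
      have e3 : p - 1 + m = p + m - 1 := by omega
      rw [e2] at h2
      rw [e3] at h3
      tauto
    · exact key0 p hp1 (by omega) hp
  have two : ∀ q, Z + m ≤ q → q ≤ Z + 2 * m → (χ (q + 2) ↔ ¬ χ q) := by
    intro q hq1 hq2
    have h1 := key (q + 1) (by omega) (by omega)
    have e : q + 1 - 1 = q := by omega
    rw [e] at h1
    exact h1
  have four : ∀ k, 4 * k ≤ m → (χ (Z + m + 4 * k) ↔ χ (Z + m)) := by
    intro k
    induction k with
    | zero => intro _; simp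
    | succ k ih =>
      intro hk
      have h1 := ih (by omega)
      have h2 := two (Z + m + 4 * k) (by omega) (by omega)
      have h3 := two (Z + m + 4 * k + 2) (by omega) (by omega)
      have e : Z + m + 4 * (k + 1) = Z + m + 4 * k + 2 + 2 := by omega
      rw [e]
      tauto
  obtain ⟨k, hk⟩ := h4
  have h1 := four k (by omega)
  have h2 := hflip (Z + m) (by omega)
  have e : Z + m + 4 * k = Z + m + m := by omega
  rw [e] at h1
  tauto

/-- two numbers `n` and `m n` with `4 | m` cannot both be rare -/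
theorem no_two {K L : ℕ} (hK : 1 ≤ K) (hL : 0 < L) {G : Set ℕ} (h4 : FourAll K L G)
    (hI : ∀ N : ℕ, 0 < N → ∀ ε : ℝ, 0 < ε → ∃ L₀ : ℕ, ∀ T : ℕ, L₀ ≤ T → ∀ u : ℕ,
      (1 / 2 - ε) * T ≤ cnt (dil (L * N) G) u T)
    {n m : ℕ} (hn : 0 < n) (hm : 0 < m) (h4m : 4 ∣ m) (hb1 : ¬ OftenL (dil L G) n)
    (hb2 : ¬ OftenL (dil L G) (m * n)) : False := by
  obtain ⟨D, hDdef⟩ : ∃ D, D = dil L G := ⟨_, rfl⟩
  rw [← hDdef] at hb1 hb2
  have hD : ∀ ε : ℝ, 0 < ε → ∃ L₀ : ℕ, ∀ T : ℕ, L₀ ≤ T → ∀ u : ℕ, (1 / 2 - ε) * T ≤ cnt D u T := by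
    intro ε hε
    have := hI 1 one_pos ε hε
    rwa [mul_one, ← hDdef] at this
  obtain ⟨N, hN⟩ : ∃ N, N = 2 * m * n := ⟨_, rfl⟩
  have hN0 : 0 < N := by rw [hN]; positivity
  have hDN : ∀ ε : ℝ, 0 < ε → ∃ L₀ : ℕ, ∀ T : ℕ, L₀ ≤ T → ∀ u : ℕ, (1 / 2 - ε) * T ≤ cnt (dil N D) u T := by
    intro ε hε
    have h1 := hI N hN0 ε hε
    have e : dil (L * N) G = dil N D := by
      ext x
      rw [hDdef]
      show L * N * x ∈ G ↔ L * (N * x) ∈ G
      rw [mul_assoc]
    rwa [e] at h1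
  obtain ⟨x₁, ⟨t₁, ht₁⟩, hx₁⟩ := pointA hD hN0 hDN hb1 (4 * m * K + m + 1)
  obtain ⟨Z, hZ⟩ : ∃ Z, Z = 2 * m * (t₁ + 3 * K + 1) := ⟨_, rfl⟩
  obtain ⟨R, hR⟩ : ∃ R, R = 4 * Z + 20 * m + 20 + 4 * m * K := ⟨_, rfl⟩
  obtain ⟨y, hy⟩ := pointB hD hb2 (R * n)
  obtain ⟨χ, hχ⟩ : ∃ χ : ℕ → Prop, χ = fun j => y + j * n ∈ D := ⟨_, rfl⟩
  have hflip : ∀ j ≤ R, (χ (j + m) ↔ ¬ χ j) := by
    intro j hj
    have h1 := hy (j * n) (Nat.mul_le_mul_right n hj)
    rw [hχ]
    show (y + (j + m) * n ∈ D ↔ ¬ (y + j * n ∈ D))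
    have e : y + (j + m) * n = y + j * n + m * n := by ring
    rw [e]
    tauto
  have hper : ∀ k j, j + 2 * m * k ≤ R → (χ (j + 2 * m * k) ↔ χ j) := by
    intro k
    induction k with
    | zero => intro j _; simp
    | succ k ih =>
      intro j hj
      have e1 : j + 2 * m * (k + 1) = j + 2 * m * k + m + m := by ring
      have h1 := ih j (by omega)
      have h2 := hflip (j + 2 * m * k) (by omega)
      have h3 := hflip (j + 2 * m * k + m) (by omega)
      rw [e1]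
      tauto
  obtain ⟨x₀, a₀, hx1, hx2, ha₀, hc1, hc2, hc3⟩ := three_zeros (χ := χ) (Z := Z) hm h4m (fun j hj => hflip j (by omega))
  obtain ⟨m', hm'⟩ := h4m
  have ha₀' : a₀ ≤ m + 1 ∧ 1 ≤ a₀ ∧ ¬ Even a₀ := by
    rcases ha₀ with h | h
    · refine ⟨by omega, by omega, ?_⟩
      rw [h]
      decide
    · refine ⟨by omega, by omega, ?_⟩
      rw [h, Nat.not_even_iff_odd]
      exact ⟨2 * m', by omega⟩
  obtain ⟨A₀, hA₀⟩ : ∃ A₀, A₀ = 2 * m * (t₁ + K) + a₀ := ⟨_, rfl⟩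
  have hZA : A₀ + 2 * m * K + m ≤ Z + 1 := by
    rw [hZ, hA₀]
    have : 2 * m * (t₁ + 3 * K + 1) = 2 * m * (t₁ + K) + 2 * m * K + 2 * m * K + 2 * m := by ring
    have := Nat.zero_le (2 * m * K)
    omega
  -- the four differences
  obtain ⟨a, ha⟩ : ∃ a, a = A₀ * n := ⟨_, rfl⟩
  obtain ⟨b, hb⟩ : ∃ b, b = y + x₀ * n := ⟨_, rfl⟩
  have hmain : ∀ i₀ x' : ℕ, 2 * m * K ≤ i₀ → i₀ + 2 * m * K ≤ R → ¬ χ x' → (∃ k, i₀ = x' + 2 * m * k ∨ x' = i₀ + 2 * m * k) →
      x' ≤ R → ∀ k k' : Fin K, N * k < (y + i₀ * n) + N * k' + 1 ∧ (y + i₀ * n) + N * k' - N * k ∉ D := by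
    intro i₀ x' h1 h2 h3 h4 hx'R k k'
    have hk := k.2
    have hk' := k'.2
    obtain ⟨e, he⟩ : ∃ e, i₀ = 2 * m * k + e := Nat.exists_eq_add_of_le
      ((Nat.mul_le_mul_left (2 * m) hk.le).trans h1)
    have e1 : (y + i₀ * n) + N * k' - N * k = y + (e + 2 * m * k') * n := by
      rw [he, hN]
      have : (y + (2 * m * k + e) * n) + 2 * m * n * k' = y + (e + 2 * m * k') * n + 2 * m * n * k := by ring
      omega
    have e2 : N * k < (y + i₀ * n) + N * k' + 1 := by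
      rw [he, hN]
      have : (y + (2 * m * k + e) * n) + 2 * m * n * k' = y + (e + 2 * m * k') * n + 2 * m * n * k := by ring
      omega
    refine ⟨e2, ?_⟩
    rw [e1]
    -- compare the indices
    have h5 : 2 * m * k' ≤ 2 * m * K := Nat.mul_le_mul_left _ hk'.le
    have p1 := hper k' e (by omega)
    have p2 := hper k e (by omega)
    have e3 : e + 2 * m * k = i₀ := by omega
    rw [e3] at p2
    have p3 : χ i₀ ↔ χ x' := by
      obtain ⟨l, hl⟩ := h4
      rcases hl with hl | hl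
      · have := hper l x' (by omega)
        rw [← hl] at this
        exact this
      · have := hper l i₀ (by omega)
        rw [← hl] at this
        exact this.symm
    have h6 : ¬ χ (e + 2 * m * k') := by tauto
    rw [hχ] at h6
    exact h6
  have hPa : ∀ k k' : Fin K, N * k < a + N * k' ∧ a + N * k' - N * k ∉ D := by
    intro k k'
    have hk := k.2
    have hk' := k'.2
    obtain ⟨e, he⟩ : ∃ e, K = k + e := Nat.exists_eq_add_of_le hk.le
    have e1 : a + N * k' = x₁ + (2 * m * e + a₀ + 2 * m * k') * n + N * k := by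
      have e0 : 2 * m * n * K = 2 * m * n * (k + e) := by rw [← he]
      rw [ha, hA₀, ht₁, hN]
      have e2 : (2 * m * (t₁ + K) + a₀) * n + 2 * m * n * k' =
          2 * m * n * K + (2 * m * n * t₁ + a₀ * n + 2 * m * n * k') := by ring
      rw [e2, e0]
      ring
    have h1 : 1 * 1 ≤ (2 * m * e + a₀ + 2 * m * k') * n := Nat.mul_le_mul (by omega) hn
    refine ⟨by omega, ?_⟩
    rw [e1, Nat.add_sub_cancel]
    have h2 : 2 * m * e ≤ 2 * m * K := Nat.mul_le_mul_left _ (by omega)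
    have h3 : 2 * m * k' ≤ 2 * m * K := Nat.mul_le_mul_left _ hk'.le
    have h4 : 4 * m * K = 2 * m * K + 2 * m * K := by ring
    rw [hx₁ _ (by omega)]
    have h5 : 2 * m * e + a₀ + 2 * m * k' = a₀ + 2 * (m * e + m * k') := by ring
    rw [h5, Nat.even_add]
    simp [ha₀'.2.2]
  have hRb : x₀ + A₀ + 2 * m * K ≤ R := by
    rw [hR]
    omega
  have hKp : 2 * m * 1 ≤ 2 * m * K := Nat.mul_le_mul_left _ hK
  have hPb : ∀ k k' : Fin K, N * k < b + N * k' + 1 ∧ b + N * k' - N * k ∉ D := by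
    rw [hb]
    exact hmain x₀ x₀ (by omega) (by omega) hc1 ⟨0, Or.inl (by ring)⟩ (by omega)
  have hPba : ∀ k k' : Fin K, N * k < (b + a) + N * k' + 1 ∧ (b + a) + N * k' - N * k ∉ D := by
    have e : b + a = y + (x₀ + A₀) * n := by rw [hb, ha]; ring
    rw [e]
    exact hmain (x₀ + A₀) (x₀ + a₀) (by omega) (by omega) hc3 ⟨t₁ + K, Or.inl (by rw [hA₀]; ring)⟩ (by omega)
  have hPb' : ∀ k k' : Fin K, N * k < (b - a) + N * k' + 1 ∧ (b - a) + N * k' - N * k ∉ D := by
    have e : b - a = y + (x₀ - A₀) * n := by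
      rw [hb, ha]
      obtain ⟨v, hv⟩ := Nat.exists_eq_add_of_le (by omega : A₀ ≤ x₀)
      rw [hv, Nat.add_sub_cancel_left]
      have : y + (A₀ + v) * n = y + v * n + A₀ * n := by ring
      omega
    rw [e]
    exact hmain (x₀ - A₀) (x₀ - a₀) (by omega) (by omega) hc2 ⟨t₁ + K, Or.inr (by rw [hA₀] at *; omega)⟩ (by omega)
  -- the classes
  have hab : a + N * K < b := by
    have e1 : a + N * K = (A₀ + 2 * m * K) * n := by rw [ha, hN]; ring
    have h1 : (A₀ + 2 * m * K) * n < x₀ * n := Nat.mul_lt_mul_of_pos_right (by omega) hn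
    omega
  obtain ⟨base, hbase⟩ : ∃ base : Fin 4 → ℕ, base = ![0, a, b, b + a] := ⟨_, rfl⟩
  have hbase0 : base 0 = 0 := by rw [hbase]; rfl
  have hbase1 : base 1 = a := by rw [hbase]; rfl
  have hbase2 : base 2 = b := by rw [hbase]; rfl
  have hbase3 : base 3 = b + a := by rw [hbase]; rfl
  have hNk : ∀ k : Fin K, N * k < N * K := fun k => Nat.mul_lt_mul_of_pos_left k.2 hN0
  have cross : ∀ g g' : Fin 4, g < g' → ∀ k k' : Fin K, base g + N * k < base g' + N * k' ∧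
      (base g' + N * k') - (base g + N * k) ∉ D := by
    intro g g' hgg k k'
    have hk := hNk k
    have hk' := hNk k'
    obtain ⟨pa1, pa2⟩ := hPa k k'
    obtain ⟨pb1, pb2⟩ := hPb k k'
    obtain ⟨pc1, pc2⟩ := hPba k k'
    obtain ⟨pd1, pd2⟩ := hPb' k k'
    fin_cases g <;> fin_cases g' <;> first | (exact absurd hgg (by decide)) | skip
    · show base 0 + N * k < base 1 + N * k' ∧ (base 1 + N * k') - (base 0 + N * k) ∉ D
      rw [hbase0, hbase1, zero_add]
      exact ⟨pa1, pa2⟩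
    · show base 0 + N * k < base 2 + N * k' ∧ (base 2 + N * k') - (base 0 + N * k) ∉ D
      rw [hbase0, hbase2, zero_add]
      exact ⟨by omega, pb2⟩
    · show base 0 + N * k < base 3 + N * k' ∧ (base 3 + N * k') - (base 0 + N * k) ∉ D
      rw [hbase0, hbase3, zero_add]
      exact ⟨by omega, pc2⟩
    · show base 1 + N * k < base 2 + N * k' ∧ (base 2 + N * k') - (base 1 + N * k) ∉ D
      rw [hbase1, hbase2]
      have e : b + N * k' - (a + N * k) = b - a + N * k' - N * k := by omega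
      rw [e]
      exact ⟨by omega, pd2⟩
    · show base 1 + N * k < base 3 + N * k' ∧ (base 3 + N * k') - (base 1 + N * k) ∉ D
      rw [hbase1, hbase3]
      have e : b + a + N * k' - (a + N * k) = b + N * k' - N * k := by omega
      rw [e]
      exact ⟨by omega, pb2⟩
    · show base 2 + N * k < base 3 + N * k' ∧ (base 3 + N * k') - (base 2 + N * k) ∉ D
      rw [hbase2, hbase3]
      have e : b + a + N * k' - (b + N * k) = a + N * k' - N * k := by omega
      rw [e]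
      exact ⟨by omega, pa2⟩
  obtain ⟨g, g', k, k', hne, hlt, hG⟩ := h4 (fun g k => L * (base g + N * k)) (by
    rintro ⟨g, k⟩ ⟨g', k'⟩ h
    have h' : base g + N * k = base g' + N * k' := Nat.eq_of_mul_eq_mul_left hL h
    rcases lt_trichotomy g g' with hg | hg | hg
    · have := (cross g g' hg k k').1
      omega
    · subst hg
      have h5 : N * k = N * k' := by omega
      rw [Fin.ext (Nat.eq_of_mul_eq_mul_left hN0 h5)]
    · have := (cross g' g hg k' k).1
      omega) (by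
    intro g k g' k'
    have hz : ∀ g k, L * (base g + N * k) ≡ 0 [MOD L] := fun g k => (Nat.modEq_zero_iff_dvd).2 (dvd_mul_right _ _)
    exact (hz g k).trans (hz g' k').symm)
  have hlt' : base g + N * k < base g' + N * k' := lt_of_mul_lt_mul_left hlt (Nat.zero_le _)
  rcases lt_or_gt_of_ne hne with h | h
  · have h5 := (cross g g' h k k').2
    rw [hDdef] at h5
    apply h5
    show L * ((base g' + N * k') - (base g + N * k)) ∈ G
    rw [Nat.mul_sub]
    exact hG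
  · have := (cross g' g h k' k).1
    omega

/-- dilation, and windows which do not start at a multiple -/
theorem oftenL_dil {N : ℕ} (hN : 0 < N) {G : Set ℕ} {n : ℕ} (h : OftenL (dil N G) n) : OftenL G (N * n) := by
  obtain ⟨c, hc, L₀, h⟩ := h
  have hN0 : (0 : ℝ) < N := by exact_mod_cast hN
  refine ⟨c / (2 * N), by positivity, N * (L₀ + 8), fun T hT u => ?_⟩
  have hdiv : L₀ + 8 ≤ T / N := by
    rw [Nat.le_div_iff_mul_le hN]
    have : (L₀ + 8) * N = N * (L₀ + 8) := mul_comm _ _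
    omega
  have h0 := h (T / N - 2) (by omega) (u / N + 1)
  have h1 : rr (dil N G) n (u / N + 1) (T / N - 2) ≤ rr G (N * n) u T := by
    unfold rr
    apply card_le_card_of_injOn (fun x => N * x)
    · intro k hk
      rw [mem_coe, mem_filter, mem_Ioc] at hk ⊢
      obtain ⟨⟨h1, h2⟩, h3, h3'⟩ := hk
      beta_reduce
      have h4 : u < N * (u / N) + N := by
        have := Nat.lt_mul_div_succ u hN
        rwa [mul_add, mul_one] at this
      have h5 : N * (u / N) ≤ u := Nat.mul_div_le u N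
      have h6 : N * (T / N) ≤ T := Nat.mul_div_le T N
      have h7 : N * (u / N + 1) ≤ N * k := Nat.mul_le_mul_left N h1.le
      have h8 : N * k ≤ N * (u / N + 1 + (T / N - 2)) := Nat.mul_le_mul_left N h2
      have h9 : N * (u / N + 1 + (T / N - 2)) = N * (u / N) + N * (T / N - 1) := by
        rw [← mul_add]
        congr 1
        omega
      have h10 : N * (T / N - 1) ≤ N * (T / N) := Nat.mul_le_mul_left N (by omega)
      have h11 : N * (u / N + 1) = N * (u / N) + N := by ring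
      have h12 : N * (k + n) ∈ G := h3'
      refine ⟨⟨by omega, by omega⟩, h3, ?_⟩
      rwa [mul_add] at h12
    · intro x _ y _ hxy
      exact Nat.eq_of_mul_eq_mul_left hN hxy
  have h2 : (rr (dil N G) n (u / N + 1) (T / N - 2) : ℝ) ≤ rr G (N * n) u T := by exact_mod_cast h1
  refine le_trans ?_ (h0.trans h2)
  have h3 : (T : ℝ) < N * ((T / N : ℕ) : ℝ) + N := by
    have := Nat.lt_mul_div_succ T hN
    rw [mul_add, mul_one] at this
    exact_mod_cast this
  have h4 : (8 : ℝ) ≤ ((T / N : ℕ) : ℝ) := by exact_mod_cast (by omega : 8 ≤ T / N)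
  have h5 : ((T / N - 2 : ℕ) : ℝ) = ((T / N : ℕ) : ℝ) - 2 := by
    rw [Nat.cast_sub (by omega)]
    norm_num
  rw [h5]
  have h6 : (T : ℝ) ≤ 2 * N * (((T / N : ℕ) : ℝ) - 2) := by nlinarith
  calc c / (2 * N) * T ≤ c / (2 * N) * (2 * N * (((T / N : ℕ) : ℝ) - 2)) :=
        mul_le_mul_of_nonneg_left h6 (by positivity)
    _ = c * (((T / N : ℕ) : ℝ) - 2) := by field_simp

/-- **all multiples of some number are differences, in every long interval** -/
theorem diffsL {K L : ℕ} (hK : 1 ≤ K) (hL : 0 < L) {G : Set ℕ} (h4 : FourAll K L G) :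
    ∃ M : ℕ, 0 < M ∧ ∀ h : ℕ, 0 < h → M ∣ h → OftenL G h := by
  rcases dichotomy hL h4 with hI | ⟨β, hβ, M, hM, hII⟩
  · by_cases hb : ∃ n₁, 0 < n₁ ∧ ¬ OftenL (dil L G) n₁
    · obtain ⟨n₁, hn₁, hb⟩ := hb
      refine ⟨L * (4 * n₁), by positivity, fun h hh hd => ?_⟩
      obtain ⟨k, rfl⟩ := hd
      have hk : 0 < k := Nat.pos_of_ne_zero (by rintro rfl; simp at hh)
      have e : L * (4 * n₁) * k = L * (4 * k * n₁) := by ring
      rw [e]
      apply oftenL_dil hL
      by_contra hb2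
      exact no_two hK hL h4 hI hn₁ (by positivity : 0 < 4 * k) (dvd_mul_right 4 k) hb hb2
    · push Not at hb
      refine ⟨L, hL, fun h hh hd => ?_⟩
      obtain ⟨k, rfl⟩ := hd
      have hk : 0 < k := Nat.pos_of_ne_zero (by rintro rfl; simp at hh)
      exact oftenL_dil hL (hb k hk)
  · refine ⟨M, hM, fun h hh hd => ?_⟩
    obtain ⟨k, rfl⟩ := hd
    apply oftenL_dil hM
    obtain ⟨L₀, hL₀⟩ := hII M hM dvd_rfl
    refine ⟨2 * β, by positivity, L₀, fun T hT u => ?_⟩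
    have h1 := count4 (dil M G) k u T
    have h2 : (((Ioc u (u + T)).filter (fun x => (x ∈ dil M G ↔ x + k ∈ dil M G))).card : ℝ) +
        ((cnt (dil M G) u T : ℝ) + cnt (dil M G) (u + k) T) = T + 2 * (rr (dil M G) k u T : ℝ) := by exact_mod_cast h1
    have h4 := hL₀ T hT u
    have h5 := hL₀ T hT (u + k)
    have h6 : (rr (dil M G) k u T : ℝ) ≤ (((Ioc u (u + T)).filter (fun x => (x ∈ dil M G ↔ x + k ∈ dil M G))).card : ℝ) := by
      rw [Nat.cast_le]
      unfold rr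
      apply card_le_card
      intro x hx
      rw [mem_filter] at hx ⊢
      exact ⟨hx.1, iff_of_true hx.2.1 hx.2.2⟩
    linarith

end Pool.Agent.HP27.GD
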