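import Mathlib
import Pool.Agent.HP27.GD.Low2
import Pool.Agent.HP27.TG.Gaps

set_option autoImplicit false

/-!
# Sets of gaps between consecutive primes which are frequent at common scales
-/

namespace Pool.Agent.HP27.GD

open Finset Filter Classical

open Pool.Agent.HP27.TG (FourAll dil cnt four_any fourAll_ultra)

/-- a set of numbers which meets the differences of any four classes such that any finitely many of its elements
are frequent at a common scale -/
theorem gapset : ∃ K B : ℕ, 1 ≤ K ∧ ∀ P q a : ℕ, 0 < P → 6 ∣ P → 1 ≤ q → q ∣ P → a.Coprime q →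
    ∀ X : ℕ → ℝ, Tendsto X atTop atTop → ∃ G : Set ℕ,
      (∀ F : Finset ℕ, (∀ k ∈ F, k ∈ G) → ∃ᶠ s in atTop, ∀ k ∈ F, Pool.Agent.H40E9.SG.Often B q a P (X s) (P * k)) ∧
      FourAll K (4 * K).factorial G := by
  obtain ⟨K, B, hK, h⟩ := four_any
  refine ⟨K, B, hK, fun P q a hP h6 hq hqP haq X hX => ?_⟩
  obtain ⟨V, hV⟩ := Ultrafilter.exists_le (atTop : Filter ℕ)
  refine ⟨{k | ∀ᶠ s in (V : Filter ℕ), Pool.Agent.H40E9.SG.Often B q a P (X s) (P * k)}, ?_, ?_⟩
  · intro F hF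
    have h1 : ∀ᶠ s in (V : Filter ℕ), ∀ k ∈ F, Pool.Agent.H40E9.SG.Often B q a P (X s) (P * k) := by
      rw [Filter.eventually_all_finset]
      exact hF
    exact h1.frequently.filter_mono hV
  · exact fourAll_ultra V hV (fun A hinj hmod =>
      hX.eventually (h P q a hP h6 hq hqP haq A hinj (fun g k k' => hmod g k g k')))

/-- the multiples `P k` with `k` in `G` -/
def mul (P : ℕ) (G : Set ℕ) : Set ℕ := {g | ∃ k ∈ G, g = P * k}

theorem dil_mul {P : ℕ} (hP : 0 < P) (G : Set ℕ) : dil P (mul P G) = G := by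
  ext x
  constructor
  · rintro ⟨k, hk, he⟩
    rwa [Nat.eq_of_mul_eq_mul_left hP he]
  · intro hx
    exact ⟨x, hx, rfl⟩

theorem mul_diffs {K L P : ℕ} (hK : 1 ≤ K) (hL : 0 < L) (hP : 0 < P) {G : Set ℕ} (h4 : FourAll K L G) :
    ∃ M : ℕ, 0 < M ∧ ∀ h : ℕ, 0 < h → M ∣ h → OftenL (mul P G) h := by
  obtain ⟨M, hM, h⟩ := diffsL hK hL h4
  refine ⟨P * M, Nat.mul_pos hP hM, fun x hx hd => ?_⟩
  obtain ⟨j, rfl⟩ := hd
  have hj : 0 < M * j := by
    rcases Nat.eq_zero_or_pos (M * j) with h0 | h0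
    · rw [mul_assoc, h0] at hx
      omega
    · exact h0
  rw [mul_assoc]
  apply oftenL_dil hP
  rw [dil_mul hP]
  exact h _ hj (dvd_mul_right M j)

end Pool.Agent.HP27.GD
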