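import Mathlib
import Pool.Agent.HP27.GD.GapSet

set_option autoImplicit false

/-!
# Sums and differences of two gaps between consecutive primes: density one
-/

namespace Pool.Agent.HP27.GD

open Finset Filter Classical
open Pool.Agent.HP27.TG (FourAll dil cnt rep repd)

theorem gaps2' : ∃ (B : ℕ) (c : ℝ → ℝ), (∀ δ, 0 < δ → 0 < c δ) ∧
    ∀ P q a : ℕ, 0 < P → 6 ∣ P → 1 ≤ q → q ∣ P → a.Coprime q →
    ∀ X : ℕ → ℝ, Tendsto X atTop atTop → ∃ G : Set ℕ,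
      (∀ F : Finset ℕ, (∀ k ∈ F, k ∈ G) → ∃ᶠ s in atTop, ∀ k ∈ F, Pool.Agent.H40E9.SG.Often B q a P (X s) (P * k)) ∧
      ∃ M : ℕ, 0 < M ∧ ∀ N : ℕ, 0 < N → M ∣ N → ∀ α β : ℕ, 0 < α → 0 < β → ∀ δ : ℝ, 0 < δ →
        ∃ T₀ : ℕ, ∀ T : ℕ, T₀ ≤ T → ∀ u : ℕ,
        (((Ioc u (u + T)).filter (fun h => (rep (dil (N * β) G) (dil (N * α) G) h : ℝ) < c δ * h)).card : ℝ) ≤ δ * T ∧
        ∀ Y : ℕ, 2 * (u + T) ≤ Y →
        (((Ioc u (u + T)).filter (fun h => (repd (dil (N * α) G) (dil (N * β) G) Y h : ℝ) < c δ * Y)).card : ℝ) ≤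
          δ * T := by
  obtain ⟨K, B, hK, h⟩ := gapset
  obtain ⟨c, hc, hs⟩ := strong hK
  refine ⟨B, c, hc, fun P q a hP h6 hq hqP haq X hX => ?_⟩
  obtain ⟨G, hG, h4⟩ := h P q a hP h6 hq hqP haq X hX
  exact ⟨G, hG, hs _ G (Nat.factorial_pos _) h4⟩

end Pool.Agent.HP27.GD
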