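import Mathlib
import Pool.Agent.HP27.GD.GapSet
import Pool.Agent.HP27.TG.Cubes2

set_option autoImplicit false

/-!
# Sets of differences of consecutive primes which occur often between consecutive cubes, at common scales
-/

namespace Pool.Agent.HP27.GD

open Finset Filter Classical
open Pool.Agent.HP27.S3 (RichP RichP_mono)
open Pool.Agent.HP27.TG (FourAll dil cnt rep repd four_cubes)

theorem cubeset : ∃ K B : ℕ, 1 ≤ K ∧ ∀ P : ℕ, 0 < P → 6 ∣ P →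
    ∀ X : ℕ → ℕ, Tendsto X atTop atTop → ∃ G : Set ℕ,
      (∀ F : Finset ℕ, (∀ k ∈ F, k ∈ G) → ∃ κ : ℝ, 0 < κ ∧ ∃ᶠ s in atTop, ∀ k ∈ F, RichP B P κ (P * k) (X s)) ∧
      FourAll K (4 * K).factorial G := by
  obtain ⟨K, B, hK, h⟩ := four_cubes
  refine ⟨K, B, hK, fun P hP h6 X hX => ?_⟩
  obtain ⟨V, hV⟩ := Ultrafilter.exists_le (atTop : Filter ℕ)
  refine ⟨{k | ∃ κ : ℝ, 0 < κ ∧ ∀ᶠ s in (V : Filter ℕ), RichP B P κ (P * k) (X s)}, ?_, ?_⟩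
  · intro F hF
    have h0 : ∃ κ : ℝ, 0 < κ ∧ ∀ᶠ s in (V : Filter ℕ), ∀ k ∈ F, RichP B P κ (P * k) (X s) := by
      induction F using Finset.induction_on with
      | empty => exact ⟨1, one_pos, Eventually.of_forall fun s k hk => absurd hk (notMem_empty k)⟩
      | insert a F _ ih =>
        obtain ⟨κ₁, hκ₁, h1⟩ := ih fun k hk => hF k (mem_insert_of_mem hk)
        obtain ⟨κ₂, hκ₂, h2⟩ := hF a (mem_insert_self a F)
        refine ⟨min κ₁ κ₂, lt_min hκ₁ hκ₂, ?_⟩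
        filter_upwards [h1, h2] with s hs1 hs2 k hk
        rcases mem_insert.1 hk with rfl | hk
        · exact RichP_mono hs2 (min_le_right _ _)
        · exact RichP_mono (hs1 k hk) (min_le_left _ _)
    obtain ⟨κ, hκ, h1⟩ := h0
    exact ⟨κ, hκ, h1.frequently.filter_mono hV⟩
  · intro A hinj hmod
    obtain ⟨κ, hκ, hev⟩ := h P hP h6 A hinj (fun g k k' => hmod g k g k')
    by_contra hcon
    push Not at hcon
    have h1 : ∀ᶠ s in (V : Filter ℕ), ∀ g g' k k', g ≠ g' → A g k < A g' k' →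
        ¬ RichP B P κ (P * (A g' k' - A g k)) (X s) := by
      simp only [eventually_all]
      intro g g' k k' hne hlt
      have h2 := hcon g g' k k' hne hlt
      rw [Ultrafilter.eventually_not]
      intro h3
      exact h2 ⟨κ, hκ, h3⟩
    obtain ⟨s, hs1, hs2⟩ := (h1.and ((hX.eventually hev).filter_mono hV)).exists
    obtain ⟨g, g', k, k', hne, hlt, hD⟩ := hs2
    exact hs1 g g' k k' hne hlt hD

theorem cubes2' : ∃ (B : ℕ) (c : ℝ → ℝ), (∀ δ, 0 < δ → 0 < c δ) ∧ ∀ P : ℕ, 0 < P → 6 ∣ P →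
    ∀ X : ℕ → ℕ, Tendsto X atTop atTop → ∃ G : Set ℕ,
      (∀ F : Finset ℕ, (∀ k ∈ F, k ∈ G) → ∃ κ : ℝ, 0 < κ ∧ ∃ᶠ s in atTop, ∀ k ∈ F, RichP B P κ (P * k) (X s)) ∧
      ∃ M : ℕ, 0 < M ∧ ∀ N : ℕ, 0 < N → M ∣ N → ∀ α β : ℕ, 0 < α → 0 < β → ∀ δ : ℝ, 0 < δ →
        ∃ T₀ : ℕ, ∀ T : ℕ, T₀ ≤ T → ∀ u : ℕ,
        (((Ioc u (u + T)).filter (fun h => (rep (dil (N * β) G) (dil (N * α) G) h : ℝ) < c δ * h)).card : ℝ) ≤ δ * T ∧
        ∀ Y : ℕ, 2 * (u + T) ≤ Y →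
        (((Ioc u (u + T)).filter (fun h => (repd (dil (N * α) G) (dil (N * β) G) Y h : ℝ) < c δ * Y)).card : ℝ) ≤
          δ * T := by
  obtain ⟨K, B, hK, h⟩ := cubeset
  obtain ⟨c, hc, hs⟩ := strong hK
  refine ⟨B, c, hc, fun P hP h6 X hX => ?_⟩
  obtain ⟨G, hG, h4⟩ := h P hP h6 X hX
  exact ⟨G, hG, hs _ G (Nat.factorial_pos _) h4⟩

end Pool.Agent.HP27.GD
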