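import Mathlib
import Pool.Agent.HP27.TG.Main

set_option autoImplicit false

/-!
# Common dilates in sets which meet the differences of any four classes

If `G` meets the differences of any four classes then for any finitely many `a ≥ 1` there are arbitrarily large `x` with all
the `a x` in `G` (Hindman's theorem).
-/

namespace Pool.Agent.HP27.GD

open Finset Classical
open Pool.Agent.HP27.TG (FourAll)

theorem fs_diff (f : Stream' ℕ+) : ∀ d i : ℕ, ∃ m : ℕ+, m ∈ Hindman.FS (f.drop i) ∧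
    ∑ l ∈ range (i + d + 1), (f.get l : ℕ) = ∑ l ∈ range i, (f.get l : ℕ) + m := by
  intro d
  induction d with
  | zero =>
    intro i
    refine ⟨(f.drop i).head, Hindman.FS.head _, ?_⟩
    rw [add_zero, sum_range_succ, Stream'.head_drop]
  | succ d ih =>
    intro i
    obtain ⟨m, hm1, hm2⟩ := ih (i + 1)
    refine ⟨(f.drop i).head + m, Hindman.FS.cons _ m (by rwa [Stream'.tail_drop']), ?_⟩
    have e : i + (d + 1) + 1 = i + 1 + d + 1 := by ring
    rw [e, hm2, sum_range_succ, Stream'.head_drop, PNat.add_coe, add_assoc]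

/-- **common dilates** -/
theorem dilates {K L : ℕ} (hL : 0 < L) {G : Set ℕ} (h4 : FourAll K L G) (F : Finset ℕ) (hF : ∀ a ∈ F, 0 < a)
    (R : ℕ) : ∃ x, R < x ∧ ∀ a ∈ F, a * x ∈ G := by
  obtain ⟨N, hN⟩ : ∃ N, N = L * (R + 1) := ⟨_, rfl⟩
  have hN0 : 0 < N := by rw [hN]; positivity
  obtain ⟨good, hgood⟩ : ∃ good : Set ℕ+, good = {n : ℕ+ | ∀ a ∈ F, a * (N * (n : ℕ)) ∈ G} := ⟨_, rfl⟩
  obtain ⟨bad, hbad⟩ : ∃ bad : ℕ → Set ℕ+, bad = fun a => {n : ℕ+ | a * (N * (n : ℕ)) ∉ G} := ⟨_, rfl⟩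
  obtain ⟨c, hc, f, hf⟩ := Hindman.exists_FS_of_finite_cover (M := ℕ+) (insert good (bad '' (F : Set ℕ)))
    ((F.finite_toSet.image bad).insert good) (by
      intro n _
      rw [Set.mem_sUnion]
      by_cases h : n ∈ good
      · exact ⟨good, Set.mem_insert _ _, h⟩
      · obtain ⟨a, ha, hna⟩ : ∃ a ∈ F, a * (N * (n : ℕ)) ∉ G := by
          by_contra hcon
          push Not at hcon
          apply h
          rw [hgood]
          exact hcon
        refine ⟨bad a, Set.mem_insert_of_mem _ ⟨a, ha, rfl⟩, ?_⟩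
        rw [hbad]
        exact hna)
  rw [Set.mem_insert_iff] at hc
  rcases hc with hc | ⟨a, ha, hac⟩
  · -- a good number
    rw [hc] at hf
    have h1 : f.head ∈ good := hf (Hindman.FS.head f)
    rw [hgood] at h1
    refine ⟨N * (f.head : ℕ), ?_, h1⟩
    have h2 : R + 1 ≤ N := by
      rw [hN]
      exact Nat.le_mul_of_pos_left _ hL
    have h3 : N ≤ N * (f.head : ℕ) := Nat.le_mul_of_pos_right _ f.head.pos
    omega
  · -- the partial sums give four classes
    exfalso
    rw [← hac] at hf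
    have ha0 : 0 < a := hF a ha
    obtain ⟨s, hs⟩ : ∃ s : ℕ → ℕ, s = fun i => ∑ l ∈ range i, (f.get l : ℕ) := ⟨_, rfl⟩
    have hdiff : ∀ i j, i < j → ∃ m : ℕ+, m ∈ bad a ∧ s j = s i + m := by
      intro i j hij
      obtain ⟨d, rfl⟩ : ∃ d, j = i + d + 1 := ⟨j - i - 1, by omega⟩
      obtain ⟨m, hm1, hm2⟩ := fs_diff f d i
      refine ⟨m, hf (Hindman.FS_iter_tail_sub_FS f i hm1), ?_⟩
      rw [hs]
      exact hm2
    have hmono : StrictMono s := by
      intro i j hij
      obtain ⟨m, -, hm⟩ := hdiff i j hij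
      have := m.pos
      omega
    obtain ⟨e, he⟩ : ∃ e : Fin 4 × Fin K ≃ Fin (4 * K), e = finProdFinEquiv := ⟨_, rfl⟩
    obtain ⟨g, g', k, k', hne, hlt, hG⟩ := h4 (fun g k => a * (N * s (e (g, k)))) (by
      rintro ⟨g, k⟩ ⟨g', k'⟩ h
      have h1 : N * s (e (g, k)) = N * s (e (g', k')) := Nat.eq_of_mul_eq_mul_left ha0 h
      have h2 := hmono.injective (Nat.eq_of_mul_eq_mul_left hN0 h1)
      exact e.injective (Fin.ext h2)) (by
      intro g k g' k'
      have hz : ∀ g k, a * (N * s (e (g, k))) ≡ 0 [MOD L] := fun g k => (Nat.modEq_zero_iff_dvd).2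
        (((Dvd.intro _ hN.symm).mul_right _).mul_left _)
      exact (hz g k).trans (hz g' k').symm)
    have hlt' : a * (N * s (e (g, k))) < a * (N * s (e (g', k'))) := hlt
    have h1 : s (e (g, k)) < s (e (g', k')) := lt_of_mul_lt_mul_left (lt_of_mul_lt_mul_left hlt' (Nat.zero_le _))
      (Nat.zero_le _)
    have h2 : ((e (g, k) : Fin (4 * K)) : ℕ) < (e (g', k') : Fin (4 * K)) := hmono.lt_iff_lt.1 h1
    obtain ⟨m, hm1, hm2⟩ := hdiff _ _ h2
    rw [hbad] at hm1
    apply hm1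
    have hG' : a * (N * s (e (g', k'))) - a * (N * s (e (g, k))) ∈ G := hG
    rw [hm2] at hG'
    have e1 : a * (N * (s (e (g, k)) + (m : ℕ))) - a * (N * s (e (g, k))) = a * (N * (m : ℕ)) := by
      have e2 : a * (N * (s (e (g, k)) + (m : ℕ))) = a * (N * s (e (g, k))) + a * (N * (m : ℕ)) := by ring
      rw [e2, Nat.add_sub_cancel_left]
    rwa [e1] at hG'

end Pool.Agent.HP27.GD
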