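import Mathlib
import Pool.Agent.HP27.GD.Low2

set_option autoImplicit false

/-!
# All multiples of some number are values of `a x - b y`

Let `G` meet the differences of any four classes and let `a, b ≥ 1`. Then there is `M` such that every multiple
`h > 0` of `M` is `a g - b g'` with `g, g'` in `G`, for a positive upper density of the `g'`. For any finitely many
`a` there are `x` with all the `a x` in `G`.
-/

namespace Pool.Agent.HP27.GD

open Finset Filter Classical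
open Pool.Agent.HP27.TG (FourAll dil cnt)

/-- the number of the `x ≤ T` with `x` in `D` and `x + n` in `E` -/
noncomputable def r2 (D E : Set ℕ) (n T : ℕ) : ℕ := ((Ioc 0 T).filter (fun x => x ∈ D ∧ x + n ∈ E)).card

/-- the numbers `x` with `x` in `D` and `x + n` in `E` have positive upper density -/
def Up (D E : Set ℕ) (n : ℕ) : Prop := ∃ c : ℝ, 0 < c ∧ ∀ L₀ : ℕ, ∃ T ≥ L₀, c * T ≤ (r2 D E n T : ℝ)

/-- the number of the `x ≤ T` with `P x` -/
noncomputable def cn (P : ℕ → Prop) (T : ℕ) : ℕ := ((Ioc 0 T).filter P).card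

theorem cn_mono {P Q : ℕ → Prop} (h : ∀ x, Q x → P x) (T : ℕ) : cn Q T ≤ cn P T := by
  unfold cn
  apply card_le_card
  intro x hx
  rw [mem_filter] at hx ⊢
  exact ⟨hx.1, h x hx.2⟩

theorem cn_or {P Q R : ℕ → Prop} (h : ∀ x, R x → P x ∨ Q x) (T : ℕ) : cn R T ≤ cn P T + cn Q T := by
  unfold cn
  refine (card_le_card ?_).trans (card_union_le _ _)
  intro x hx
  rw [mem_filter] at hx
  rw [mem_union, mem_filter, mem_filter]
  rcases h x hx.2 with h | h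
  · exact Or.inl ⟨hx.1, h⟩
  · exact Or.inr ⟨hx.1, h⟩

theorem cn_cover {D E : Set ℕ} {n : ℕ} {R : ℕ → Prop} (h : ∀ x, ¬ (x ∈ D ∧ x + n ∈ E) → R x) (T : ℕ) :
    T ≤ cn R T + r2 D E n T := by
  unfold cn r2
  have h0 : (Ioc 0 T).card = T := by rw [Nat.card_Ioc]; omega
  refine le_trans (le_of_eq h0.symm) (le_trans (card_le_card ?_) (card_union_le _ _))
  intro x hx
  rw [mem_union, mem_filter, mem_filter]
  by_cases h' : x ∈ D ∧ x + n ∈ E
  · exact Or.inr ⟨hx, h'⟩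
  · exact Or.inl ⟨hx, h x h'⟩

theorem r2_le_cn {D E : Set ℕ} {n : ℕ} {R : ℕ → Prop} (h : ∀ x, x ∈ D → x + n ∈ E → R x) (T : ℕ) :
    r2 D E n T ≤ cn R T := by
  unfold cn r2
  apply card_le_card
  intro x hx
  rw [mem_filter] at hx ⊢
  exact ⟨hx.1, h x hx.2.1 hx.2.2⟩

/-- density zero -/
def Few (P : ℕ → Prop) : Prop := ∀ c : ℝ, 0 < c → ∃ L : ℕ, ∀ T : ℕ, L ≤ T → (cn P T : ℝ) ≤ c * T

theorem count5 (D E : Set ℕ) (n T : ℕ) :
    cn (fun x => (x ∈ D ↔ x + n ∈ E)) T + (cnt D 0 T + cnt E n T) = T + 2 * r2 D E n T := by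
  have e3' : ((Ioc 0 T).filter (fun x => x + n ∈ E)).card = cnt E n T := by
    have := cnt_shift E n 0 T
    rw [zero_add, zero_add] at this
    exact this
  rw [← e3']
  have e0 : (Ioc 0 T).card = T := by rw [Nat.card_Ioc]; omega
  have e1 : cn (fun x => (x ∈ D ↔ x + n ∈ E)) T =
      ∑ x ∈ Ioc 0 T, (if (x ∈ D ↔ x + n ∈ E) then 1 else 0) := by
    unfold cn
    rw [card_filter]
    apply sum_congr rfl
    intro x _
    by_cases hx : (x ∈ D ↔ x + n ∈ E) <;> simp [hx]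
  have e2 : cnt D 0 T = ∑ x ∈ Ioc 0 T, (if x ∈ D then 1 else 0) := by unfold cnt; rw [zero_add, card_filter]
  have e3 : ((Ioc 0 T).filter (fun x => x + n ∈ E)).card =
      ∑ x ∈ Ioc 0 T, (if x + n ∈ E then 1 else 0) := by rw [card_filter]
  have e4 : r2 D E n T = ∑ x ∈ Ioc 0 T, (if x ∈ D ∧ x + n ∈ E then 1 else 0) := by unfold r2; rw [card_filter]
  have e5 : T = ∑ x ∈ Ioc 0 T, 1 := by rw [← card_eq_sum_ones, e0]
  calc _ = ∑ x ∈ Ioc 0 T, ((if (x ∈ D ↔ x + n ∈ E) then 1 else 0) +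
        ((if x ∈ D then 1 else 0) + (if x + n ∈ E then 1 else 0))) := by
        rw [sum_add_distrib, sum_add_distrib, ← e1, ← e2, ← e3]
    _ = ∑ x ∈ Ioc 0 T, (1 + 2 * (if x ∈ D ∧ x + n ∈ E then 1 else 0)) := by
        apply sum_congr rfl
        intro x _
        by_cases hx : x ∈ D <;> by_cases hy : x + n ∈ E <;> simp [hx, hy]
    _ = _ := by rw [sum_add_distrib, ← mul_sum, ← e4, ← e5]

theorem few_of_not_up {D E : Set ℕ}
    (hD : ∀ ε : ℝ, 0 < ε → ∃ L₀ : ℕ, ∀ T : ℕ, L₀ ≤ T → ∀ u : ℕ, (1 / 2 - ε) * T ≤ cnt D u T)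
    (hE : ∀ ε : ℝ, 0 < ε → ∃ L₀ : ℕ, ∀ T : ℕ, L₀ ≤ T → ∀ u : ℕ, (1 / 2 - ε) * T ≤ cnt E u T)
    {n : ℕ} (hbad : ¬ Up D E n) : Few (fun x => (x ∈ D ↔ x + n ∈ E)) := by
  intro c hc
  unfold Up at hbad
  push Not at hbad
  obtain ⟨L₁, h1⟩ := hbad (c / 4) (by linarith)
  obtain ⟨L₂, h2⟩ := hD (c / 4) (by linarith)
  obtain ⟨L₃, h3⟩ := hE (c / 4) (by linarith)
  refine ⟨L₁ + L₂ + L₃, fun T hT => ?_⟩
  have h4 : (cn (fun x => (x ∈ D ↔ x + n ∈ E)) T : ℝ) + ((cnt D 0 T : ℝ) + cnt E n T) =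
      T + 2 * (r2 D E n T : ℝ) := by exact_mod_cast count5 D E n T
  have h5 := h1 T (by omega)
  have h6 := h2 T (by omega) 0
  have h7 := h3 T (by omega) n
  linarith

theorem Few.mono {P Q : ℕ → Prop} (h : Few P) (hQ : ∀ x, Q x → P x) : Few Q := by
  intro c hc
  obtain ⟨L, hL⟩ := h c hc
  refine ⟨L, fun T hT => le_trans ?_ (hL T hT)⟩
  rw [Nat.cast_le]
  exact cn_mono hQ T

theorem Few.or {P Q : ℕ → Prop} (h : Few P) (h' : Few Q) : Few (fun x => P x ∨ Q x) := by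
  intro c hc
  obtain ⟨L, hL⟩ := h (c / 2) (by linarith)
  obtain ⟨L', hL'⟩ := h' (c / 2) (by linarith)
  refine ⟨L + L', fun T hT => ?_⟩
  have h1 := hL T (by omega)
  have h2 := hL' T (by omega)
  have h4 : (cn (fun x => P x ∨ Q x) T : ℝ) ≤ (cn P T : ℝ) + (cn Q T : ℝ) := by
    exact_mod_cast cn_or (P := P) (Q := Q) (R := fun x => P x ∨ Q x) (fun x h => h) T
  linarith

theorem Few.unshift {P : ℕ → Prop} {n : ℕ} (h : Few (fun x => P (x + n))) : Few P := by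
  intro c hc
  obtain ⟨L, hL⟩ := h (c / 2) (by linarith)
  obtain ⟨J, hJ⟩ := exists_nat_ge (2 * n / c)
  refine ⟨L + J, fun T hT => ?_⟩
  have h1 := hL T (by omega)
  have h3 : cn P T ≤ n + cn (fun x => P (x + n)) T := by
    unfold cn
    have hsub : (Ioc 0 T).filter P ⊆ (Ioc 0 n) ∪ ((Ioc 0 T).filter (fun x => P (x + n))).image (fun x => x + n) := by
      intro x hx
      rw [mem_filter, mem_Ioc] at hx
      rw [mem_union, mem_Ioc, mem_image]
      rcases le_or_gt x n with h | h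
      · exact Or.inl ⟨hx.1.1, h⟩
      · right
        refine ⟨x - n, ?_, by omega⟩
        rw [mem_filter, mem_Ioc]
        have e : x - n + n = x := by omega
        rw [e]
        exact ⟨⟨by omega, by omega⟩, hx.2⟩
    have h4 := (card_le_card hsub).trans (card_union_le _ _)
    have h5 : (Ioc 0 n).card = n := by rw [Nat.card_Ioc]; omega
    rw [h5] at h4
    exact h4.trans (Nat.add_le_add_left card_image_le n)
  have h4 : (cn P T : ℝ) ≤ n + (cn (fun x => P (x + n)) T : ℝ) := by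
    exact_mod_cast h3
  have h5 : (n : ℝ) ≤ c / 2 * T := by
    have h6 : (J : ℝ) ≤ T := by exact_mod_cast (by omega : J ≤ T)
    have h7 : 2 * (n : ℝ) / c ≤ T := hJ.trans h6
    rw [div_le_iff₀ hc] at h7
    linarith
  linarith

theorem Few.shift {P : ℕ → Prop} (h : Few P) (n : ℕ) : Few (fun x => P (x + n)) := by
  intro c hc
  obtain ⟨L, hL⟩ := h (c / 2) (by linarith)
  refine ⟨L + n, fun T hT => ?_⟩
  have h1 := hL (T + n) (by omega)
  have h3 : cn (fun x => P (x + n)) T ≤ cn P (T + n) := by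
    unfold cn
    apply card_le_card_of_injOn (fun x => x + n)
    · intro x hx
      rw [mem_coe, mem_filter, mem_Ioc] at hx ⊢
      beta_reduce
      exact ⟨⟨by omega, by omega⟩, hx.2⟩
    · intro x _ y _ hxy
      have h : x + n = y + n := hxy
      omega
  have h4 : (cn (fun x => P (x + n)) T : ℝ) ≤ (cn P (T + n) : ℝ) := by
    exact_mod_cast h3
  have h5 : ((T + n : ℕ) : ℝ) ≤ 2 * T := by exact_mod_cast (by omega : T + n ≤ 2 * T)
  nlinarith

theorem Few.dil {P : ℕ → Prop} (h : Few P) {r : ℕ} (hr : 0 < r) : Few (fun x => P (r * x)) := by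
  intro c hc
  have hr0 : (0 : ℝ) < r := by exact_mod_cast hr
  obtain ⟨L, hL⟩ := h (c / r) (by positivity)
  refine ⟨L, fun T hT => ?_⟩
  have h1 := hL (r * T) (hT.trans (Nat.le_mul_of_pos_left T hr))
  have h3 : cn (fun x => P (r * x)) T ≤ cn P (r * T) := by
    unfold cn
    apply card_le_card_of_injOn (fun x => r * x)
    · intro x hx
      rw [mem_coe, mem_filter, mem_Ioc] at hx ⊢
      exact ⟨⟨Nat.mul_pos hr hx.1.1, Nat.mul_le_mul_left r hx.1.2⟩, hx.2⟩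
    · intro x _ y _ hxy
      exact Nat.eq_of_mul_eq_mul_left hr hxy
  have h4 : (cn (fun x => P (r * x)) T : ℝ) ≤ (cn P (r * T) : ℝ) := by
    exact_mod_cast h3
  have h5 : c / r * ((r * T : ℕ) : ℝ) = c * T := by
    push_cast
    field_simp
  rw [h5] at h1
  exact h4.trans h1

/-- an almost invariant set which meets all intervals of some length has density one -/
theorem few_of_inv {E : Set ℕ} {L₀ : ℕ} (hL₀ : ∀ u : ℕ, ∃ y, u < y ∧ y ≤ u + L₀ ∧ y ∈ E)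
    (h : Few (fun x => ¬ (x ∈ E ↔ x + 1 ∈ E))) : Few (fun x => x ∉ E) := by
  obtain ⟨Q, hQ⟩ : ∃ Q : ℕ → Prop, Q = fun x => ¬ (x ∈ E ↔ x + 1 ∈ E) := ⟨_, rfl⟩
  obtain ⟨R, hR⟩ : ∃ R : ℕ → Prop, R = fun x => x ∉ E := ⟨_, rfl⟩
  rw [← hQ] at h
  rw [← hR]
  intro c hc
  obtain ⟨L, hL⟩ := h (c / (2 * (L₀ + 1))) (by positivity)
  refine ⟨L + L₀ + 1, fun T hT => ?_⟩
  have h1 := hL (T + L₀) (by omega)
  have hsub : (Ioc 0 T).filter R ⊆
      (range (L₀ + 1)).biUnion (fun j => ((Ioc 0 (T + L₀)).filter Q).image (fun x => x - j)) := by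
    intro x hx
    rw [mem_filter, mem_Ioc] at hx
    obtain ⟨⟨hx1, hx2⟩, hxE⟩ := hx
    rw [hR] at hxE
    -- the first change after `x`
    obtain ⟨y, hy1, hy2, hyE⟩ := hL₀ x
    have hex : ∃ j, x + j ∈ E := ⟨y - x, by
      have e : x + (y - x) = y := by omega
      rw [e]
      exact hyE⟩
    obtain ⟨j, hj⟩ : ∃ j, j = Nat.find hex := ⟨_, rfl⟩
    have hj1 : x + j ∈ E := by rw [hj]; exact Nat.find_spec hex
    have hj2 : ∀ i < j, x + i ∉ E := fun i hi => by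
      rw [hj] at hi
      exact Nat.find_min hex hi
    have hj3 : j ≤ y - x := by
      rw [hj]
      apply Nat.find_min'
      have e : x + (y - x) = y := by omega
      rw [e]
      exact hyE
    have hj0 : 0 < j := by
      rcases Nat.eq_zero_or_pos j with h0 | h0
      · rw [h0, add_zero] at hj1
        exact absurd hj1 hxE
      · exact h0
    rw [mem_biUnion]
    refine ⟨j - 1, mem_range.2 (by omega), ?_⟩
    rw [mem_image]
    refine ⟨x + (j - 1), ?_, by omega⟩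
    rw [mem_filter, mem_Ioc]
    refine ⟨⟨by omega, by omega⟩, ?_⟩
    have e : x + (j - 1) + 1 = x + j := by omega
    rw [hQ]
    show ¬ (x + (j - 1) ∈ E ↔ x + (j - 1) + 1 ∈ E)
    rw [e]
    intro hiff
    exact hj2 (j - 1) (by omega) (hiff.2 hj1)
  have h2 := (card_le_card hsub).trans card_biUnion_le
  have h3 : ∑ j ∈ range (L₀ + 1), (((Ioc 0 (T + L₀)).filter Q).image (fun x => x - j)).card ≤
      ∑ _j ∈ range (L₀ + 1), ((Ioc 0 (T + L₀)).filter Q).card :=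
    sum_le_sum fun j _ => card_image_le
  rw [sum_const, card_range, smul_eq_mul] at h3
  have h5 : (cn R T : ℝ) ≤ ((L₀ + 1 : ℕ) : ℝ) * (cn Q (T + L₀) : ℝ) := by
    unfold cn
    exact_mod_cast h2.trans h3
  have h6 : ((T + L₀ : ℕ) : ℝ) ≤ 2 * T := by exact_mod_cast (by omega : T + L₀ ≤ 2 * T)
  have hL0 : (0 : ℝ) < L₀ + 1 := by positivity
  refine h5.trans ?_
  push_cast
  calc ((L₀ : ℝ) + 1) * (cn Q (T + L₀) : ℝ)
      ≤ (L₀ + 1) * (c / (2 * (L₀ + 1)) * ((T + L₀ : ℕ) : ℝ)) := mul_le_mul_of_nonneg_left h1 hL0.le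
    _ ≤ (L₀ + 1) * (c / (2 * (L₀ + 1)) * (2 * T)) :=
        mul_le_mul_of_nonneg_left (mul_le_mul_of_nonneg_left h6 (by positivity)) hL0.le
    _ = c * T := by field_simp

/-- two numbers which are not represented: a level of density one -/
theorem level_one {D E : Set ℕ}
    (hD : ∀ ε : ℝ, 0 < ε → ∃ L₀ : ℕ, ∀ T : ℕ, L₀ ≤ T → ∀ u : ℕ, (1 / 2 - ε) * T ≤ cnt D u T)
    (hE : ∀ ε : ℝ, 0 < ε → ∃ L₀ : ℕ, ∀ T : ℕ, L₀ ≤ T → ∀ u : ℕ, (1 / 2 - ε) * T ≤ cnt E u T)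
    {n r : ℕ} (hr : 0 < r)
    (hEr : ∀ ε : ℝ, 0 < ε → ∃ L₀ : ℕ, ∀ T : ℕ, L₀ ≤ T → ∀ u : ℕ, (1 / 2 - ε) * T ≤ cnt (dil r E) u T)
    (h1 : ¬ Up D E n) (h2 : ¬ Up D E (n + r)) : Few (fun x => x ∉ dil r E) := by
  have f1 := few_of_not_up hD hE h1
  have f2 := few_of_not_up hD hE h2
  have f3 : Few (fun x => ¬ (x + n ∈ E ↔ x + n + r ∈ E)) := by
    refine (f1.or f2).mono (fun x hx => ?_)
    have e : x + (n + r) = x + n + r := by ring
    rw [e]
    tauto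
  have f4 : Few (fun y => ¬ (y ∈ E ↔ y + r ∈ E)) := Few.unshift (n := n) f3
  have f5 := f4.dil hr
  obtain ⟨L₀, hL₀⟩ := hEr (1 / 4) (by norm_num)
  refine few_of_inv (L₀ := L₀ + 1) (fun u => ?_) (f5.mono (fun x hx => ?_))
  · have h3 := hL₀ (L₀ + 1) (by omega) u
    have h4 : 0 < cnt (dil r E) u (L₀ + 1) := by
      rcases Nat.eq_zero_or_pos (cnt (dil r E) u (L₀ + 1)) with h | h
      · rw [h] at h3
        push_cast at h3
        have : (0 : ℝ) ≤ L₀ := Nat.cast_nonneg L₀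
        linarith
      · exact h
    unfold cnt at h4
    obtain ⟨y, hy⟩ := card_pos.1 h4
    rw [mem_filter, mem_Ioc] at hy
    exact ⟨y, hy.1.1, hy.1.2, hy.2⟩
  · have e : r * (x + 1) = r * x + r := by ring
    show ¬ (r * x ∈ E ↔ r * x + r ∈ E)
    rw [← e]
    exact hx

theorem up_of_few {D E : Set ℕ} (hD : Few (fun x => x ∉ D)) (hE : Few (fun x => x ∉ E)) (n : ℕ) : Up D E n := by
  have h1 := hD.or (hE.shift n)
  obtain ⟨L, hL⟩ := h1 (1 / 2) (by norm_num)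
  refine ⟨1 / 2, by norm_num, fun L₀ => ⟨L + L₀, by omega, ?_⟩⟩
  have h2 := hL (L + L₀) (by omega)
  have h3 : L + L₀ ≤ cn (fun x => x ∉ D ∨ x + n ∉ E) (L + L₀) + r2 D E n (L + L₀) := by
    apply cn_cover
    intro x hx
    tauto
  have h4 : ((L + L₀ : ℕ) : ℝ) ≤ (cn (fun x => x ∉ D ∨ x + n ∉ E) (L + L₀) : ℝ) + (r2 D E n (L + L₀) : ℝ) := by
    exact_mod_cast h3
  linarith

theorem dil_dil (a N : ℕ) (G : Set ℕ) : dil a (dil N G) = dil (a * N) G := by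
  ext x
  show N * (a * x) ∈ G ↔ a * N * x ∈ G
  have e : N * (a * x) = a * N * x := by ring
  rw [e]

/-- **all multiples of some number are values of `a x - b y`** -/
theorem forms {K L : ℕ} (hL : 0 < L) {G : Set ℕ} (h4 : FourAll K L G) {a b : ℕ} (ha : 0 < a) (hb : 0 < b) :
    ∃ N m : ℕ, 0 < N ∧ 0 < m ∧ ∀ k : ℕ, 0 < k → Up (dil (b * N) G) (dil (a * N) G) (m * k) := by
  rcases dichotomy hL h4 with hI | ⟨β, hβ, M, hM, hII⟩
  · have hlev : ∀ d : ℕ, 0 < d → ∀ ε : ℝ, 0 < ε → ∃ L₀ : ℕ, ∀ T : ℕ, L₀ ≤ T → ∀ u : ℕ,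
        (1 / 2 - ε) * T ≤ cnt (dil (d * L) G) u T := by
      intro d hd ε hε
      have := hI d hd ε hε
      rwa [mul_comm L d] at this
    by_cases hex : ∃ n r : ℕ, 0 < r ∧ ¬ Up (dil (b * L) G) (dil (a * L) G) n ∧ ¬ Up (dil (b * L) G) (dil (a * L) G) (n + r)
    · obtain ⟨n, r, hr, h1, h2⟩ := hex
      have h3 := level_one (hlev b hb) (hlev a ha) hr (by
        intro ε hε
        have := hlev (r * a) (Nat.mul_pos hr ha) ε hε
        rw [dil_dil]
        rwa [mul_assoc] at this) h1 h2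
      rw [dil_dil] at h3
      refine ⟨r * (a * L), 1, by positivity, one_pos, fun k _ => ?_⟩
      have hd : ∀ d : ℕ, 0 < d → Few (fun x => x ∉ dil (d * (r * (a * L))) G) := by
        intro d hd
        have h5 := h3.dil hd
        refine h5.mono (fun x hx hx' => hx ?_)
        rw [← dil_dil]
        exact hx'
      exact up_of_few (hd b hb) (hd a ha) _
    · push Not at hex
      by_cases h1 : ∃ n₀, ¬ Up (dil (b * L) G) (dil (a * L) G) n₀
      · obtain ⟨n₀, hn₀⟩ := h1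
        refine ⟨L, n₀ + 1, hL, by omega, fun k hk => ?_⟩
        have h2 : n₀ + 1 ≤ (n₀ + 1) * k := Nat.le_mul_of_pos_right _ hk
        have h3 := hex n₀ ((n₀ + 1) * k - n₀) (by omega) hn₀
        have e : n₀ + ((n₀ + 1) * k - n₀) = (n₀ + 1) * k := by omega
        rwa [e] at h3
      · push Not at h1
        exact ⟨L, 1, hL, one_pos, fun k _ => h1 _⟩
  · refine ⟨M, 1, hM, one_pos, fun k _ => ?_⟩
    obtain ⟨L₁, hL₁⟩ := hII (b * M) (Nat.mul_pos hb hM) (dvd_mul_left M b)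
    obtain ⟨L₂, hL₂⟩ := hII (a * M) (Nat.mul_pos ha hM) (dvd_mul_left M a)
    refine ⟨β, hβ, fun L₀ => ⟨L₀ + L₁ + L₂, by omega, ?_⟩⟩
    have h1 : (cn (fun x => (x ∈ dil (b * M) G ↔ x + 1 * k ∈ dil (a * M) G)) (L₀ + L₁ + L₂) : ℝ) +
        ((cnt (dil (b * M) G) 0 (L₀ + L₁ + L₂) : ℝ) + cnt (dil (a * M) G) (1 * k) (L₀ + L₁ + L₂)) =
        ((L₀ + L₁ + L₂ : ℕ) : ℝ) + 2 * (r2 (dil (b * M) G) (dil (a * M) G) (1 * k) (L₀ + L₁ + L₂) : ℝ) := by
      exact_mod_cast count5 _ _ _ _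
    have h2 := hL₁ (L₀ + L₁ + L₂) (by omega) 0
    have h3 := hL₂ (L₀ + L₁ + L₂) (by omega) (1 * k)
    have h4 : (r2 (dil (b * M) G) (dil (a * M) G) (1 * k) (L₀ + L₁ + L₂) : ℝ) ≤
        (cn (fun x => (x ∈ dil (b * M) G ↔ x + 1 * k ∈ dil (a * M) G)) (L₀ + L₁ + L₂) : ℝ) := by
      rw [Nat.cast_le]
      apply r2_le_cn
      intro x hx1 hx2
      exact iff_of_true hx1 hx2
    have hT : (0 : ℝ) ≤ ((L₀ + L₁ + L₂ : ℕ) : ℝ) := Nat.cast_nonneg _
    nlinarith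

end Pool.Agent.HP27.GD
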