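import Mathlib
import Pool.Agent.HP27.GD.Forms
import Pool.Agent.HP27.GD.Dilates
import Pool.Agent.HP27.GD.GapSet

set_option autoImplicit false

/-!
# All multiples of some number are values of `A x - B y`: counting pairs
-/

namespace Pool.Agent.HP27.GD

open Finset Filter Classical
open Pool.Agent.HP27.TG (FourAll dil cnt)

/-- pairs of elements of `P G` up to `Y` -/
theorem pairs_up {G : Set ℕ} {A B N n P : ℕ} (hP : 0 < P) (hA : 0 < A) (hB : 0 < B) (hN : 0 < N)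
    (hU : Up (dil (A * N) G) (dil (B * N) G) n) :
    ∃ c : ℝ, 0 < c ∧ ∃ᶠ Y : ℕ in atTop, c * Y ≤ ({p : ℕ × ℕ | (0 < p.1 ∧ p.1 ≤ Y ∧ p.1 ∈ mul P G) ∧
      (0 < p.2 ∧ p.2 ≤ Y ∧ p.2 ∈ mul P G) ∧ A * p.1 = B * p.2 + P * A * B * N * n}.ncard : ℝ) := by
  obtain ⟨c, hc, h⟩ := hU
  obtain ⟨W, hW⟩ : ∃ W, W = P * (A + B) * N := ⟨_, rfl⟩
  have hW0 : 0 < W := by rw [hW]; positivity
  have hW1 : (0 : ℝ) < W := by exact_mod_cast hW0
  refine ⟨c / (2 * W), by positivity, ?_⟩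
  rw [frequently_atTop]
  intro Y₀
  obtain ⟨T, hT, hcT⟩ := h (Y₀ + n)
  have hY : Y₀ ≤ 2 * W * T := by
    have h1 : 1 * T ≤ 2 * W * T := Nat.mul_le_mul_right T (by omega)
    omega
  refine ⟨2 * W * T, hY, ?_⟩
  have h1 : c / (2 * W) * ((2 * W * T : ℕ) : ℝ) = c * T := by
    push_cast
    field_simp
  rw [h1]
  refine hcT.trans ?_
  rw [Nat.cast_le]
  unfold r2
  rw [← Set.ncard_coe_finset]
  refine Set.ncard_le_ncard_of_injOn (fun x => (P * (B * N * (x + n)), P * (A * N * x))) ?_ ?_ ?_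
  · intro x hx
    rw [mem_coe, mem_filter, mem_Ioc] at hx
    obtain ⟨⟨hx1, hx2⟩, hx3, hx4⟩ := hx
    have e1 : P * (B * N * (x + n)) ≤ 2 * W * T := by
      have h2 : P * (B * N * (x + n)) ≤ P * ((A + B) * N * (T + T)) :=
        Nat.mul_le_mul_left P (Nat.mul_le_mul (Nat.mul_le_mul_right N (by omega)) (by omega))
      have h3 : P * ((A + B) * N * (T + T)) = 2 * W * T := by rw [hW]; ring
      omega
    have e2 : P * (A * N * x) ≤ 2 * W * T := by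
      have h2 : P * (A * N * x) ≤ P * ((A + B) * N * (T + T)) :=
        Nat.mul_le_mul_left P (Nat.mul_le_mul (Nat.mul_le_mul_right N (by omega)) (by omega))
      have h3 : P * ((A + B) * N * (T + T)) = 2 * W * T := by rw [hW]; ring
      omega
    refine ⟨⟨by positivity, e1, ⟨B * N * (x + n), hx4, rfl⟩⟩, ⟨by positivity, e2, ⟨A * N * x, hx3, rfl⟩⟩, ?_⟩
    show A * (P * (B * N * (x + n))) = B * (P * (A * N * x)) + P * A * B * N * n
    ring
  · intro x _ y _ hxy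
    have h2 : P * (A * N * x) = P * (A * N * y) := (Prod.ext_iff.1 hxy).2
    exact Nat.eq_of_mul_eq_mul_left (Nat.mul_pos hA hN) (Nat.eq_of_mul_eq_mul_left hP h2)
  · exact ((Set.finite_Iic (2 * W * T)).prod (Set.finite_Iic (2 * W * T))).subset
      fun p hp => ⟨hp.1.2.1, hp.2.1.2.1⟩

/-- **every multiple of some number is a value of `A x - B y`** -/
theorem mixed {K L : ℕ} (hL : 0 < L) {G : Set ℕ} (h4 : FourAll K L G) {P A B : ℕ} (hP : 0 < P) (hA : 0 < A)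
    (hB : 0 < B) : ∃ M : ℕ, 0 < M ∧ ∀ h : ℤ, h ≠ 0 → (M : ℤ) ∣ h → ∃ c : ℝ, 0 < c ∧ ∃ᶠ Y : ℕ in atTop,
      c * Y ≤ ({p : ℕ × ℕ | (0 < p.1 ∧ p.1 ≤ Y ∧ p.1 ∈ mul P G) ∧ (0 < p.2 ∧ p.2 ≤ Y ∧ p.2 ∈ mul P G) ∧
        (A : ℤ) * p.1 - B * p.2 = h}.ncard : ℝ) := by
  obtain ⟨N, m, hN, hm, h1⟩ := forms hL h4 hB hA
  obtain ⟨N', m', hN', hm', h2⟩ := forms hL h4 hA hB
  refine ⟨(P * A * B * N * m) * (P * A * B * N' * m'), by positivity, fun h hh hd => ?_⟩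
  obtain ⟨z, hz⟩ := hd
  have hz0 : z ≠ 0 := by
    rintro rfl
    rw [mul_zero] at hz
    exact hh hz
  rcases lt_or_gt_of_ne hz0 with hneg | hpos
  · -- negative
    obtain ⟨j, rfl⟩ : ∃ j : ℕ, z = -j := ⟨z.natAbs, by omega⟩
    have hj : 0 < j := by omega
    obtain ⟨c, hc, hfr⟩ := pairs_up hP hB hA hN' (h2 (P * A * B * N * m * j) (by positivity))
    refine ⟨c, hc, hfr.mono fun Y hY => hY.trans ?_⟩
    rw [Nat.cast_le]
    refine Set.ncard_le_ncard_of_injOn Prod.swap ?_ ?_ ?_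
    · rintro ⟨x, y⟩ ⟨hx, hy, hxy⟩
      refine ⟨hy, hx, ?_⟩
      show (A : ℤ) * (y : ℤ) - B * (x : ℤ) = h
      have h3 : (B : ℤ) * x = A * y + P * B * A * N' * (m' * (P * A * B * N * m * j)) := by exact_mod_cast hxy
      rw [hz]
      push_cast
      linarith
    · exact Prod.swap_injective.injOn
    · exact ((Set.finite_Iic Y).prod (Set.finite_Iic Y)).subset fun p hp => ⟨hp.1.2.1, hp.2.1.2.1⟩
  · obtain ⟨j, rfl⟩ : ∃ j : ℕ, z = j := ⟨z.natAbs, by omega⟩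
    have hj : 0 < j := by omega
    obtain ⟨c, hc, hfr⟩ := pairs_up hP hA hB hN (h1 (P * A * B * N' * m' * j) (by positivity))
    refine ⟨c, hc, hfr.mono fun Y hY => hY.trans ?_⟩
    rw [Nat.cast_le]
    apply Set.ncard_le_ncard
    · rintro ⟨x, y⟩ ⟨hx, hy, hxy⟩
      refine ⟨hx, hy, ?_⟩
      show (A : ℤ) * (x : ℤ) - B * (y : ℤ) = h
      have h3 : (A : ℤ) * x = B * y + P * A * B * N * (m * (P * A * B * N' * m' * j)) := by exact_mod_cast hxy
      rw [hz]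
      push_cast
      linarith
    · exact ((Set.finite_Iic Y).prod (Set.finite_Iic Y)).subset fun p hp => ⟨hp.1.2.1, hp.2.1.2.1⟩

end Pool.Agent.HP27.GD
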