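import Pool.Agent.W140.TF.Pts
import Pool.Agent.W284.TF.Dyson
import Mathlib.Combinatorics.Nullstellensatz

/-!
# Points whose differences avoid sets of residues of different sizes

From Dyson's constant term identity with unequal exponents: if `a_1 + ... + a_N < p` and the sets `R i j` have at most
`a_i + a_j` elements then there are `x_1, ..., x_N` with `x_j - x_i` not in `R i j` for all `i < j`.
-/

set_option autoImplicit false
open Finset MvPolynomial

namespace Pool.Agent.HP27.GD

open Pool.Agent.W140.TF (Tp split lin_hom)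
open Pool.Agent.W284.TF.Dyson (dyson Q ex ex_apply)

theorem pts (N p : ℕ) (hp : p.Prime) (a : Fin N → ℕ) (ha : ∑ i, a i + 1 ≤ p)
    (R : Fin N → Fin N → Finset (ZMod p)) (hR : ∀ i j, i < j → (R i j).card ≤ a i + a j) :
    ∃ x : Fin N → ZMod p, ∀ i j, i < j → x j - x i ∉ R i j := by
  classical
  have : Fact p.Prime := ⟨hp⟩
  set P := univ.filter (fun q : Fin N × Fin N => q.1 < q.2) with hP
  have hRP : ∀ q ∈ P, (R q.1 q.2).card ≤ a q.1 + a q.2 := fun q hq =>
    hR q.1 q.2 (Finset.mem_filter.mp hq).2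
  set f : MvPolynomial (Fin N) (ZMod p) := ∏ q ∈ P,
    ((∏ d ∈ R q.1 q.2, (X q.2 - X q.1 - C d)) * (X q.2 - X q.1) ^ (a q.1 + a q.2 - (R q.1 q.2).card))
    with hf
  set h : MvPolynomial (Fin N) (ZMod p) := ∏ q ∈ P, (X q.2 - X q.1) ^ (a q.1 + a q.2) with hh
  set e := ∑ q ∈ P, (a q.1 + a q.2) with he
  have hT : Tp e f h := by
    refine Tp.prod P _ _ _ (fun q hq => ?_)
    have h1 := Tp.prod (R q.1 q.2) (fun d => (X q.2 - X q.1 - C d : MvPolynomial (Fin N) (ZMod p)))
      (fun _ => X q.2 - X q.1) (fun _ => 1) (fun d _ => Tp.lin q.1 q.2 d)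
    have h2 : Tp (a q.1 + a q.2 - (R q.1 q.2).card)
        ((X q.2 - X q.1 : MvPolynomial (Fin N) (ZMod p)) ^ (a q.1 + a q.2 - (R q.1 q.2).card))
        ((X q.2 - X q.1) ^ (a q.1 + a q.2 - (R q.1 q.2).card)) := by
      refine Tp.refl ?_
      have := (lin_hom (K := ZMod p) q.1 q.2).pow (a q.1 + a q.2 - (R q.1 q.2).card)
      rwa [one_mul] at this
    have h3 := h1.mul h2
    have h4 : (∑ _d ∈ R q.1 q.2, 1) + (a q.1 + a q.2 - (R q.1 q.2).card) = a q.1 + a q.2 := by
      have := hRP q hq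
      simp
      omega
    have h5 : (∏ _d ∈ R q.1 q.2, (X q.2 - X q.1 : MvPolynomial (Fin N) (ZMod p))) *
        (X q.2 - X q.1) ^ (a q.1 + a q.2 - (R q.1 q.2).card) = (X q.2 - X q.1) ^ (a q.1 + a q.2) := by
      rw [Finset.prod_const, ← pow_add]
      congr 1
      have := hRP q hq
      omega
    rw [h4, h5] at h3
    exact h3
  -- Dyson
  set t : Fin N →₀ ℕ := ex univ a with ht
  have hd := dyson (∑ i ∈ (univ : Finset (Fin N)), a i + (univ : Finset (Fin N)).card) univ a rfl
  set Dz : MvPolynomial (Fin N) ℤ := Q univ a with hDz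
  set Dp : MvPolynomial (Fin N) (ZMod p) :=
    ∏ i : Fin N, ∏ j ∈ univ.erase i, (X j - X i) ^ a i with hDp
  have hmap : MvPolynomial.map (Int.castRingHom (ZMod p)) Dz = Dp := by
    simp [hDz, hDp, Q, map_prod]
  have hc1 : coeff t Dp = ((coeff t Dz : ℤ) : ZMod p) := by
    rw [← hmap, coeff_map]
    rfl
  have hc2 : coeff t Dp ≠ 0 := by
    intro h0
    rw [hc1] at h0
    have hd' : coeff t Dz * ∏ i, ((a i).factorial : ℤ) = ((∑ i, a i).factorial : ℤ) := hd
    have h1 := congrArg (fun z : ℤ => (z : ZMod p)) hd'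
    simp only [Int.cast_mul, h0, zero_mul, Int.cast_natCast] at h1
    have h2 : (((∑ i, a i).factorial : ℕ) : ZMod p) = 0 := h1.symm
    rw [ZMod.natCast_eq_zero_iff, hp.dvd_factorial] at h2
    omega
  have hDh : Dp = C (∏ q ∈ P, (-1) ^ a q.2) * h := by
    rw [hDp]
    have h1 := split (N := N) (fun q : Fin N × Fin N =>
      (X q.2 - X q.1 : MvPolynomial (Fin N) (ZMod p)) ^ a q.1)
    rw [h1]
    have h2 : ∀ q ∈ P, ((X q.2 - X q.1 : MvPolynomial (Fin N) (ZMod p)) ^ a q.1 *
        (X q.swap.2 - X q.swap.1) ^ a q.swap.1) = (-1) ^ a q.2 * (X q.2 - X q.1) ^ (a q.1 + a q.2) := by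
      intro q _
      simp only [Prod.fst_swap, Prod.snd_swap]
      have h3 : (X q.1 - X q.2 : MvPolynomial (Fin N) (ZMod p)) = (-1) * (X q.2 - X q.1) := by
        ring
      rw [h3, mul_pow, pow_add]
      ring
    rw [Finset.prod_congr rfl h2, Finset.prod_mul_distrib, ← hh]
    simp
  have hc3 : coeff t h ≠ 0 := by
    intro h0
    apply hc2
    rw [hDh, coeff_C_mul, h0, mul_zero]
  have hed : e = t.degree := by
    have h1 := hT.hom hc3
    rw [← h1, Finsupp.degree_eq_weight_one]
    rfl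
  have hc4 : coeff t f ≠ 0 := by
    have h1 := hT.low t (le_of_eq hed)
    rw [coeff_sub, sub_eq_zero] at h1
    rw [h1]
    exact hc3
  have htot : f.totalDegree = t.degree := by
    apply le_antisymm
    · refine Finset.sup_le (fun s hs => ?_)
      by_contra hcon
      have h1 : e + 1 ≤ s.degree := by
        have h2 : s.degree = (s.sum fun _ e => e) := rfl
        omega
      exact (mem_support_iff.mp hs) (hT.le s h1)
    · exact le_totalDegree (mem_support_iff.mpr hc4)
  obtain ⟨s, -, hs⟩ := combinatorial_nullstellensatz_exists_eval_nonzero f t hc4 htot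
    (fun _ => univ) (by
      intro i
      rw [Finset.card_univ, ZMod.card, ht, ex_apply, if_pos (mem_univ i)]
      omega)
  refine ⟨s, fun i j hij hmem => ?_⟩
  apply hs
  rw [hf, map_prod]
  refine Finset.prod_eq_zero (i := (i, j)) (Finset.mem_filter.mpr ⟨Finset.mem_univ _, hij⟩) ?_
  rw [map_mul, map_prod]
  refine mul_eq_zero_of_left ?_ _
  refine Finset.prod_eq_zero hmem ?_
  simp

end Pool.Agent.HP27.GD
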